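import Mathlib
import Pool.Agent.H.MP_93a5dd_an.A

namespace Pool.Agent.H.MP_5f80dd_lc

open Set Filter Topology Pool.Agent.H.MP_86dbc5_an Pool.Agent.H.MP_93a5dd_an

variable (g : (ℕ → ℕ) → P × P)

def T1 (k : ℕ) (s : ℕ → ℕ) (u v : P) : Prop :=
  (∀ i < k, u i = v i) ∨ ∃ z : ℕ → ℕ, ∀ i < k, z i ≤ s i ∧ (g z).1 i = u i ∧ (g z).2 i = v i

def Ch (k : ℕ) (s : ℕ → ℕ) : ℕ → P → P → Prop
  | 0, u, v => ∀ i < k, u i = v i
  | n + 1, u, v => ∃ w, T1 g k s u w ∧ Ch k s n w v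

variable {g}

theorem T1.mono {k k' : ℕ} {s s' : ℕ → ℕ} {u v u' v' : P} (h : T1 g k s u v) (hk : k' ≤ k)
    (hs : ∀ i < k', s i ≤ s' i) (hu : ∀ i < k', u i = u' i) (hv : ∀ i < k', v i = v' i) :
    T1 g k' s' u' v' := by
  rcases h with h | ⟨z, h⟩
  · exact Or.inl fun i hi => (hu i hi).symm.trans ((h i (by omega)).trans (hv i hi))
  · exact Or.inr ⟨z, fun i hi => ⟨(h i (by omega)).1.trans (hs i hi),
      (h i (by omega)).2.1.trans (hu i hi), (h i (by omega)).2.2.trans (hv i hi)⟩⟩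

theorem Ch.mono {k k' : ℕ} {s s' : ℕ → ℕ} (hk : k' ≤ k) (hs : ∀ i < k', s i ≤ s' i) {n : ℕ} :
    ∀ {u v u' v' : P}, Ch g k s n u v → (∀ i < k', u i = u' i) → (∀ i < k', v i = v' i) →
      Ch g k' s' n u' v' := by
  induction n with
  | zero =>
    exact fun h hu hv i hi => (hu i hi).symm.trans ((h i (by omega)).trans (hv i hi))
  | succ n ih =>
    rintro u v u' v' ⟨w, h1, h2⟩ hu hv
    exact ⟨w, h1.mono hk hs hu fun _ _ => rfl, ih h2 (fun _ _ => rfl) hv⟩

theorem Ch.snoc {k : ℕ} {s : ℕ → ℕ} {n : ℕ} : ∀ {u v w : P}, Ch g k s n u v → T1 g k s v w →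
    Ch g k s (n + 1) u w := by
  induction n with
  | zero =>
    exact fun h h' => ⟨_, h'.mono le_rfl (fun _ _ => le_rfl) (fun i hi => (h i hi).symm)
      fun _ _ => rfl, fun _ _ => rfl⟩
  | succ n ih =>
    rintro u v w ⟨w', h1, h2⟩ h
    exact ⟨w', h1, ih h2 h⟩

theorem agree {w : ℕ → P} {a : P} (h : Tendsto w atTop (𝓝 a)) (k : ℕ) :
    ∀ᶠ m in atTop, ∀ i < k, w m i = a i := by
  have : ∀ i ∈ Finset.range k, ∀ᶠ m in atTop, w m i = a i := fun i _ => by
    have := (tendsto_pi_nhds.1 h) i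
    rwa [nhds_discrete Bool, tendsto_pure] at this
  simpa using (Filter.eventually_all_finset _).2 this

theorem T1_lim (hg : Continuous g) {s : ℕ → ℕ} {u v : P} (h : ∀ k, T1 g k s u v) :
    u = v ∨ (u, v) ∈ range g := by
  by_cases e : u = v
  · exact Or.inl e
  obtain ⟨j, hj⟩ := Function.ne_iff.1 e
  have h1 : ∀ k, ∃ z : ℕ → ℕ, ∀ i < k, z i ≤ s i ∧ (g z).1 i = u i ∧ (g z).2 i = v i := fun k =>
    ((h (k + j + 1)).resolve_left fun a => hj (a j (by omega))).imp fun z a i hi => a i (by omega)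
  choose z hz using h1
  obtain ⟨a, -, φ, hφ, ha⟩ := (isCompact_univ_pi fun i => ((finite_Iic (s i)).union
    ((finite_Iic i).image fun n => z n i)).isCompact).tendsto_subseq (x := z) fun n i _ =>
      (lt_or_ge i n).imp (fun h => (hz n i h).1) fun h => ⟨n, h, rfl⟩
  refine Or.inr ⟨a, tendsto_nhds_unique ((hg.tendsto a).comp ha) ?_⟩
  refine Tendsto.comp (g := fun n => g (z n)) ?_ hφ.tendsto_atTop
  exact (tendsto_of_nd (z := fun n => (g (z n)).1) fun n i hi => (hz n i hi).2.1).prodMk_nhds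
    (tendsto_of_nd (z := fun n => (g (z n)).2) fun n i hi => (hz n i hi).2.2)

theorem Ch_lim (hg : Continuous g) {R : P → P → Prop} (h1 : ∀ u, R u u)
    (h2 : ∀ u v w, R u v → R v w → R u w) (h3 : ∀ z, R (g z).1 (g z).2) {s : ℕ → ℕ} {n : ℕ} :
    ∀ {u v : P}, (∀ k, Ch g k s n u v) → R u v := by
  induction n with
  | zero =>
    intro u v h
    have : u = v := funext fun i => h (i + 1) i (by omega)
    exact this ▸ h1 u
  | succ n ih =>
    intro u v h
    choose w hw1 hw2 using h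
    obtain ⟨a, φ, hφ, ha⟩ := CompactSpace.tendsto_subseq w
    have key : ∀ k, ∃ m, k ≤ m ∧ ∀ i < k, w m i = a i := fun k => by
      obtain ⟨m, b1, b2⟩ := ((agree ha k).and (eventually_ge_atTop k)).exists
      exact ⟨φ m, b2.trans (hφ.id_le m), b1⟩
    refine h2 u a v ?_ (ih fun k => ?_)
    · rcases T1_lim hg (s := s) (u := u) (v := a) fun k => by
        obtain ⟨m, b1, b2⟩ := key k
        exact (hw1 m).mono b1 (fun _ _ => le_rfl) (fun _ _ => rfl) b2 with e | ⟨z, e⟩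
      · exact e ▸ h1 u
      · have := h3 z
        rwa [e] at this
    · obtain ⟨m, b1, b2⟩ := key k
      exact Ch.mono b1 (fun _ _ => le_rfl) (hw2 m) b2 fun _ _ => rfl

def sh (α : ℕ → ℕ) : List ℕ → List ℕ
  | [] => []
  | k :: s => (k + α s.length) :: sh α s

theorem sh_nd (α β : ℕ → ℕ) (n : ℕ) : sh α (nd β n) = nd (β + α) n := by
  induction n with
  | zero => rfl
  | succ n ih => simp [nd, sh, ih, nd_length]

theorem sh_length (α : ℕ → ℕ) (s : List ℕ) : (sh α s).length = s.length := by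
  induction s with
  | nil => rfl
  | cons k s ih => simp [sh, ih]

theorem LR {R : P → P → Prop} (h1 : ∀ u, R u u) (h2 : ∀ u v w, R u v → R v w → R u w)
    (hR : MeasureTheory.AnalyticSet {q : P × P | R q.1 q.2}) :
    ∃ (Lab : P → ℕ → List ℕ → Prop) (a : P → ℕ → ℕ),
      (∀ x y c s, (∀ i < s.length, x i = y i) → Lab x c s → Lab y c s) ∧
      (∀ x y, R x y → ∃ α, ∀ c s, Lab x c s → Lab y c (sh α s)) ∧
      (∀ x n, Lab x (a x n) (nd 0 n)) ∧ (∀ x y n t, Lab y (a x n) t → t.length = n) ∧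
      ∀ x y β, (∀ n, Lab y (a x n) (nd β n)) → R x y := by
  rw [MeasureTheory.AnalyticSet] at hR
  rcases hR with hR | ⟨g, hg, hR⟩
  · exact (hR.subset (show ((0 : P), (0 : P)) ∈ _ from h1 _) : False).elim
  have h3 : ∀ z, R (g z).1 (g z).2 := fun z => (hR.subset ⟨z, rfl⟩ : g z ∈ {q : P × P | R q.1 q.2})
  have nt_inj : ∀ (u v : P) i, nt u i = nt v i → u i = v i := fun u v i h => by
    simp only [nt] at h
    revert h
    cases u i <;> cases v i <;> simp
  refine ⟨fun x c s => ∃ β u, s = nd β s.length ∧ c = Encodable.encode (nd (nt u) s.length) ∧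
      Ch g (s.length - 1) (fun i => β (i + 1)) (β 0) u x,
    fun x n => Encodable.encode (nd (nt x) n), ?_, ?_, ?_, ?_, ?_⟩
  · rintro x y c s h ⟨β, u, a1, a2, a3⟩
    exact ⟨β, u, a1, a2, Ch.mono le_rfl (fun _ _ => le_rfl) a3 (fun _ _ => rfl)
      fun i hi => h i (by omega)⟩
  · intro x y h
    obtain ⟨z, hz⟩ : (x, y) ∈ range g := hR.symm.subset h
    refine ⟨fun n => n.casesOn 1 z, ?_⟩
    rintro c s ⟨β, u, a1, a2, a3⟩
    refine ⟨β + fun n => n.casesOn 1 z, u, ?_, by rw [sh_length]; exact a2, ?_⟩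
    · rw [sh_length, ← sh_nd, ← a1]
    · rw [sh_length]
      refine Ch.snoc (v := x) (Ch.mono le_rfl (fun i _ => ?_) a3 (fun _ _ => rfl) fun _ _ => rfl)
        (Or.inr ⟨z, fun i _ => ⟨?_, by rw [hz], by rw [hz]⟩⟩)
      · exact Nat.le_add_right _ _
      · exact Nat.le_add_left _ _
  · intro x n
    exact ⟨0, x, by rw [nd_length], by rw [nd_length], fun _ _ => rfl⟩
  · rintro x y n t ⟨β, u, -, a2, -⟩
    have := congrArg List.length (Encodable.encode_injective a2)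
    rw [nd_length, nd_length] at this
    exact this.symm
  · intro x y β h
    refine Ch_lim hg h1 h2 h3 (s := fun i => β (i + 1)) (n := β 0) fun k => ?_
    obtain ⟨β', u, a1, a2, a3⟩ := h (k + 1)
    rw [nd_length] at a1 a2 a3
    have b1 := (nd_eq_iff _ _ _).1 a1
    have b2 := (nd_eq_iff _ _ _).1 (Encodable.encode_injective a2)
    rw [b1 0 (by omega)]
    exact Ch.mono (by omega) (fun i hi => (b1 (i + 1) (by omega)).ge) a3
      (fun i hi => nt_inj _ _ _ (b2 i (by omega)).symm) fun _ _ => rfl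

end Pool.Agent.H.MP_5f80dd_lc
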