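import Mathlib
import Pool.Agent.H.MP_5f80dd_lc.A

namespace Pool.Agent.H.MP_5f80dd_lc

open Set Pool.Agent.H.MP_86dbc5_an

abbrev V := List ℕ →₀ ℚ

noncomputable def xx (s : List ℕ) : V := Finsupp.single s 1

noncomputable def tau : V →ₗ[ℚ] ℚ := Finsupp.linearCombination ℚ fun _ => 1

theorem tau_xx (s : List ℕ) : tau (xx s) = 1 := by simp [tau, xx]

noncomputable def pr (n : ℕ) : ℕ := Nat.nth Nat.Prime (n + 2)

instance (n : ℕ) : Fact (pr n).Prime := ⟨Nat.prime_nth_prime _⟩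

theorem pr_inj {m n : ℕ} (h : pr m = pr n) : m = n := by
  have := Nat.nth_injective Nat.infinite_setOf_prime h
  omega

theorem pr_three (n : ℕ) : pr n ≠ 3 := fun h => by
  have := Nat.nth_injective Nat.infinite_setOf_prime (h.trans Nat.nth_prime_one_eq_three.symm)
  omega

theorem pr_ne (n : ℕ) : (pr n : ℚ) ≠ 0 := Nat.cast_ne_zero.2 (Fact.out : (pr n).Prime).ne_zero

def Gn (Lab : ℕ → List ℕ → Prop) (l : ℕ) (g : V) : Prop :=
  (∃ a s, l = 2 * a ∧ Lab a s ∧ g = xx s) ∨ ∃ k s, l = 2 * s.length + 1 ∧ g = xx (k :: s) + xx s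

noncomputable def G (Lab : ℕ → List ℕ → Prop) : AddSubgroup V :=
  AddSubgroup.closure {h | (∃ (i : ℕ) (s : List ℕ), h = ((3 : ℚ) ^ i)⁻¹ • xx s) ∨
    ∃ (i j l : ℕ) (g : V), Gn Lab l g ∧ h = ((3 : ℚ) ^ i * (pr l : ℚ) ^ j)⁻¹ • g}

variable {Lab Lab' : ℕ → List ℕ → Prop}

theorem xx_mem (s : List ℕ) : xx s ∈ G Lab :=
  AddSubgroup.subset_closure (Or.inl ⟨0, s, by simp⟩)

theorem G_map (f : V →ₗ[ℚ] V) (h1 : ∀ i s, f (((3 : ℚ) ^ i)⁻¹ • xx s) ∈ G Lab')
    (h2 : ∀ (i j l : ℕ) g, Gn Lab l g → f (((3 : ℚ) ^ i * (pr l : ℚ) ^ j)⁻¹ • g) ∈ G Lab')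
    {h : V} (hh : h ∈ G Lab) : f h ∈ G Lab' := by
  induction hh using AddSubgroup.closure_induction with
  | mem x hx =>
    rcases hx with ⟨i, s, rfl⟩ | ⟨i, j, l, g, a, rfl⟩
    · exact h1 i s
    · exact h2 i j l g a
  | zero => simp
  | add x y _ _ a b => rw [map_add]; exact add_mem a b
  | neg x _ a => rw [map_neg]; exact neg_mem a

theorem G_three {h : V} (hh : h ∈ G Lab) : (3 : ℚ)⁻¹ • h ∈ G Lab := by
  refine G_map ((3 : ℚ)⁻¹ • LinearMap.id) (fun i s => ?_) (fun i j l g a => ?_) hh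
  · refine AddSubgroup.subset_closure (Or.inl ⟨i + 1, s, ?_⟩)
    simp only [LinearMap.smul_apply, LinearMap.id_apply, smul_smul, pow_succ, mul_inv]
    rw [mul_comm]
  · refine AddSubgroup.subset_closure (Or.inr ⟨i + 1, j, l, g, a, ?_⟩)
    simp only [LinearMap.smul_apply, LinearMap.id_apply, smul_smul, pow_succ, mul_inv]
    congr 1
    ring

theorem G_sh {α : ℕ → ℕ} (H : ∀ c s, Lab c s → Lab' c (sh α s)) {h : V} (hh : h ∈ G Lab) :
    Finsupp.lmapDomain ℚ ℚ (sh α) h ∈ G Lab' := by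
  have e : ∀ s, Finsupp.lmapDomain ℚ ℚ (sh α) (xx s) = xx (sh α s) := fun s => by simp [xx]
  refine G_map _ (fun i s => ?_) (fun i j l g a => ?_) hh
  · rw [map_smul, e]
    exact AddSubgroup.subset_closure (Or.inl ⟨i, _, rfl⟩)
  · rw [map_smul]
    refine AddSubgroup.subset_closure (Or.inr ⟨i, j, l, _, ?_, rfl⟩)
    rcases a with ⟨a, s, b1, b2, rfl⟩ | ⟨k, s, b1, rfl⟩
    · exact Or.inl ⟨a, _, b1, H _ _ b2, e s⟩
    · exact Or.inr ⟨_, sh α s, by rw [sh_length]; exact b1, by rw [map_add, e, e]; rfl⟩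

theorem tau_sh (α : ℕ → ℕ) (h : V) : tau (Finsupp.lmapDomain ℚ ℚ (sh α) h) = tau h := by
  induction h using Finsupp.induction_linear with
  | zero => simp
  | add f g a b => rw [map_add, map_add, a, b, map_add]
  | single n a => simp [tau]

theorem G_mono (H : ∀ c s, Lab c s → Lab' c s) : G Lab ≤ G Lab' := by
  refine AddSubgroup.closure_mono ?_
  rintro _ (a | ⟨i, j, l, g, a, rfl⟩)
  · exact Or.inl a
  · exact Or.inr ⟨i, j, l, g, a.imp_left fun ⟨a, s, b1, b2, b3⟩ => ⟨a, s, b1, H _ _ b2, b3⟩, rfl⟩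

theorem G_union {h : V} (hh : h ∈ G Lab) : ∃ n, h ∈ G fun a s => Lab a s ∧ s.length ≤ n := by
  induction hh using AddSubgroup.closure_induction with
  | mem x hx =>
    rcases hx with a | ⟨i, j, l, g, ⟨a, s, b1, b2, b3⟩ | a, rfl⟩
    · exact ⟨0, AddSubgroup.subset_closure (Or.inl a)⟩
    · exact ⟨s.length, AddSubgroup.subset_closure
        (Or.inr ⟨i, j, l, g, Or.inl ⟨a, s, b1, ⟨b2, le_rfl⟩, b3⟩, rfl⟩)⟩
    · exact ⟨0, AddSubgroup.subset_closure (Or.inr ⟨i, j, l, g, Or.inr a, rfl⟩)⟩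
  | zero => exact ⟨0, zero_mem _⟩
  | add x y _ _ a b =>
    obtain ⟨m, a⟩ := a
    obtain ⟨n, b⟩ := b
    exact ⟨m + n, add_mem (G_mono (fun c s h => ⟨h.1, by omega⟩) a)
      (G_mono (fun c s h => ⟨h.1, by omega⟩) b)⟩
  | neg x _ a => exact a.imp fun n => neg_mem

theorem kill {l : ℕ} (lam : V →ₗ[ℚ] ℚ) (h1 : ∀ s, ∃ z : ℤ, lam (xx s) = z)
    (h2 : ∀ g, Gn Lab l g → lam g = 0) {h : V}
    (hh : ∀ j : ℕ, ∃ h' ∈ G Lab, h = ((pr l : ℚ) ^ j) • h') : lam h = 0 := by
  have pw : ∀ (q : ℚ) (i : ℕ), padicNorm (pr l) (q ^ i) = padicNorm (pr l) q ^ i := fun q i => by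
    induction i with
    | zero => simp
    | succ i ih => rw [pow_succ, padicNorm.mul, ih, pow_succ]
  have un : ∀ (q : ℕ) [Fact q.Prime] (i : ℕ), q ≠ pr l → padicNorm (pr l) ((q : ℚ) ^ i) = 1 :=
    fun q _ i hq => by rw [pw, padicNorm.padicNorm_of_prime_of_ne hq.symm, one_pow]
  have inv : ∀ q : ℚ, padicNorm (pr l) q = 1 → padicNorm (pr l) q⁻¹ = 1 := fun q hq => by
    have := padicNorm.div (p := pr l) 1 q
    rwa [one_div, hq, padicNorm.one, div_one] at this
  have hx : ∀ s, padicNorm (pr l) (lam (xx s)) ≤ 1 := fun s => by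
    obtain ⟨z, hz⟩ := h1 s
    rw [hz]
    exact padicNorm.of_int z
  have h3 : ∀ i : ℕ, padicNorm (pr l) ((3 : ℚ) ^ i) = 1 := fun i => by
    haveI : Fact (Nat.Prime 3) := ⟨Nat.prime_three⟩
    exact_mod_cast un 3 i (pr_three l).symm
  have key : ∀ h' ∈ G Lab, padicNorm (pr l) (lam h') ≤ 1 := by
    intro h' hh'
    induction hh' using AddSubgroup.closure_induction with
    | mem x hx' =>
      rcases hx' with ⟨i, s, rfl⟩ | ⟨i, j, m, g, a, rfl⟩
      · rw [map_smul, smul_eq_mul, padicNorm.mul, inv _ (h3 i), one_mul]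
        exact hx s
      · rw [map_smul, smul_eq_mul, padicNorm.mul]
        by_cases hm : m = l
        · rw [h2 g (hm ▸ a)]; simp
        rw [inv _ (by rw [padicNorm.mul, h3, un _ _ fun e => hm (pr_inj e), one_mul]), one_mul]
        rcases a with ⟨a, s, -, -, rfl⟩ | ⟨k, s, -, rfl⟩
        · exact hx s
        · rw [map_add]
          exact padicNorm.nonarchimedean.trans (max_le (hx _) (hx _))
    | zero => simp
    | add x y _ _ a b => rw [map_add]; exact padicNorm.nonarchimedean.trans (max_le a b)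
    | neg x _ a => rw [map_neg, padicNorm.neg]; exact a
  by_contra h0
  have hp : 0 < padicNorm (pr l) (lam h) :=
    lt_of_le_of_ne (padicNorm.nonneg _) (padicNorm.nonzero h0).symm
  obtain ⟨j, hj⟩ := exists_pow_lt_of_lt_one hp (padicNorm.padicNorm_p_lt_one_of_prime (p := pr l))
  obtain ⟨h', a, rfl⟩ := hh j
  rw [map_smul, smul_eq_mul, padicNorm.mul, pw] at hj
  exact absurd hj (not_lt.2 (mul_le_of_le_one_right (pow_nonneg (padicNorm.nonneg _) _) (key _ a)))

theorem branch (φ : G Lab →+ V) (hφ : ∀ h, φ h ∈ G Lab') (h0 : φ ⟨xx [], xx_mem _⟩ ≠ 0)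
    {a : ℕ → ℕ} (ha : ∀ n, Lab (a n) (nd 0 n)) (hl : ∀ n t, Lab' (a n) t → t.length = n) :
    ∃ β, ∀ n, Lab' (a n) (nd β n) := by
  classical
  have dv : ∀ l (g : G Lab), Gn Lab l g → ∀ j : ℕ, ∃ h' ∈ G Lab', φ g = ((pr l : ℚ) ^ j) • h' := by
    intro l g hg j
    obtain ⟨h', e⟩ : ∃ h' : G Lab, (h' : V) = ((3 : ℚ) ^ 0 * (pr l : ℚ) ^ j)⁻¹ • (g : V) :=
      ⟨⟨_, AddSubgroup.subset_closure (Or.inr ⟨0, j, l, g, hg, rfl⟩)⟩, rfl⟩
    refine ⟨φ h', hφ _, ?_⟩
    rw [← Nat.cast_pow, Nat.cast_smul_eq_nsmul, ← map_nsmul]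
    congr 1
    refine Subtype.ext ?_
    rw [AddSubgroup.coe_nsmul, e, ← Nat.cast_smul_eq_nsmul ℚ, smul_smul, Nat.cast_pow, pow_zero,
      one_mul, mul_inv_cancel₀ (pow_ne_zero _ (pr_ne l)), one_smul]
  let y : ℕ → V := fun n => φ ⟨xx (nd 0 n), xx_mem _⟩
  have s1 : ∀ n t, y n t ≠ 0 → Lab' (a n) t := by
    intro n t ht
    by_contra hn
    refine ht (kill (Lab := Lab') (l := 2 * a n) (Finsupp.lapply t) (fun s => ?_) ?_
      (dv _ _ (Or.inl ⟨_, _, rfl, ha n, rfl⟩)))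
    · exact ⟨if s = t then 1 else 0, by simp [xx, Finsupp.single_apply]⟩
    · rintro g (⟨b, s, b1, b2, rfl⟩ | ⟨k, s, b1, -⟩)
      · have : s ≠ t := fun e => hn (by rw [show a n = b by omega, ← e]; exact b2)
        simp [xx, this]
      · omega
  have s2 : ∀ n t, y n t ≠ 0 → ∃ k, y (n + 1) (k :: t) ≠ 0 := by
    intro n t ht
    have tl := hl n t (s1 n t ht)
    by_contra hn
    push Not at hn
    let lam : V →ₗ[ℚ] ℚ := Finsupp.linearCombination ℚ fun s =>
      if s = t then 1 else if ∃ k, s = k :: t then -1 else 0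
    have lx : ∀ s, lam (xx s) = if s = t then 1 else if ∃ k, s = k :: t then -1 else 0 :=
      fun s => by simp [lam, xx]
    have k1 := kill (Lab := Lab') (l := 2 * n + 1) lam (fun s => ?_) ?_
      (dv _ (⟨xx (nd 0 (n + 1)), xx_mem _⟩ + ⟨xx (nd 0 n), xx_mem _⟩)
        (Or.inr ⟨0, nd 0 n, by rw [nd_length], rfl⟩))
    · rw [map_add, map_add] at k1
      have e1 : lam (y (n + 1)) = 0 := by
        rw [Finsupp.linearCombination_apply, Finsupp.sum]
        refine Finset.sum_eq_zero fun s hs => ?_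
        have b1 := Finsupp.mem_support_iff.1 hs
        have b2 := hl _ _ (s1 _ _ b1)
        rw [if_neg (fun e => by rw [e] at b2; omega), if_neg, smul_zero]
        rintro ⟨k, rfl⟩
        exact b1 (hn k)
      have e2 : lam (y n) = y n t := by
        rw [Finsupp.linearCombination_apply, Finsupp.sum, Finset.sum_eq_single t]
        · simp
        · intro s hs hst
          have b2 := hl _ _ (s1 _ _ (Finsupp.mem_support_iff.1 hs))
          rw [if_neg hst, if_neg, smul_zero]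
          rintro ⟨k, rfl⟩
          simp at b2
          omega
        · intro h
          simpa using h
      exact ht (by rw [← e2, ← k1]; exact (by rw [e1, zero_add] : lam (y n) = lam (y (n + 1)) + lam (y n)))
    · rw [lx]
      split_ifs
      exacts [⟨1, by simp⟩, ⟨-1, by simp⟩, ⟨0, by simp⟩]
    · rintro g (⟨b, s, b1, -, -⟩ | ⟨k, s, b1, rfl⟩)
      · omega
      · have b2 : k :: s ≠ t := fun e => by rw [← e] at tl; simp at tl; omega
        have b3 : ¬ ∃ k, s = k :: t := by rintro ⟨k, rfl⟩; simp at b1; omega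
        rw [map_add, lx, lx, if_neg b2, if_neg b3]
        by_cases e : s = t
        · simp [e]
        · simp [e]
  choose! g hg using s2
  let l : ℕ → List ℕ := fun n => n.rec [] fun n r => g n r :: r
  have e : ∀ n, nd (fun n => g n (l n)) n = l n := fun n => by
    induction n with
    | zero => rfl
    | succ n ih => rw [nd, ih]
  refine ⟨fun n => g n (l n), fun n => s1 n _ ?_⟩
  rw [e]
  induction n with
  | zero =>
    obtain ⟨t, ht⟩ := Finsupp.ne_iff.1 h0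
    have := List.length_eq_zero_iff.1 (hl 0 t (s1 0 t ht))
    subst this
    exact ht
  | succ n ih => exact hg n _ ih

end Pool.Agent.H.MP_5f80dd_lc
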