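import Mathlib
import Pool.Agent.H.MP_5f80dd_lc.B

namespace Pool.Agent.H.MP_5f80dd_lc

open Set

theorem lattice (F : Finset V) (hF : ∃ g ∈ F, 0 < tau g) : ∃ (d : ℕ) (b : Fin (d + 1) → V),
    LinearIndependent ℚ b ∧ (∀ i, 0 < tau (b i)) ∧
    (∀ H : AddSubgroup V, (∀ h ∈ H, (3 : ℚ)⁻¹ • h ∈ H) → (∀ g ∈ F, g ∈ H) → ∀ i, b i ∈ H) ∧
    (∀ g ∈ F, ∃ c : Fin (d + 1) → ℤ, g = ∑ i, c i • b i) ∧
    ∀ g ∈ F, 0 < tau g → ∃ c : Fin (d + 1) → ℕ, (∀ i, 0 < c i) ∧ g = ∑ i, c i • b i := by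
  classical
  let L : Submodule ℤ V := Submodule.span ℤ (F : Set V)
  let t : V →ₗ[ℤ] ℚ := tau.restrictScalars ℤ
  have hL : L.FG := Submodule.fg_span F.finite_toSet
  obtain ⟨r, hr⟩ := (FractionalIdeal.isPrincipal (R := ℤ) (K := ℚ)
    ⟨L.map t, FractionalIdeal.isFractional_of_fg (hL.map t)⟩).principal
  have hr' : L.map t = Submodule.span ℤ {r} := hr
  obtain ⟨β, hβ, hβ0, hβ1⟩ : ∃ β ∈ L, 0 < tau β ∧ ∀ g ∈ L, ∃ n : ℤ, tau g = n * tau β := by
    obtain ⟨β, hβ, e⟩ : r ∈ L.map t := hr' ▸ Submodule.mem_span_singleton_self r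
    have e' : tau β = r := e
    have h1 : ∀ g ∈ L, ∃ n : ℤ, tau g = n * r := fun g hg => by
      have h0 : t g ∈ L.map t := Submodule.mem_map_of_mem hg
      rw [hr'] at h0
      obtain ⟨n, hn⟩ := Submodule.mem_span_singleton.1 h0
      exact ⟨n, by rw [← zsmul_eq_mul]; exact hn.symm⟩
    obtain ⟨g, hg, hg0⟩ := hF
    obtain ⟨n, hn⟩ := h1 g (Submodule.subset_span hg)
    rcases lt_trichotomy r 0 with h | h | h
    · refine ⟨-β, neg_mem hβ, by rw [map_neg, e']; linarith, fun g hg => ?_⟩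
      obtain ⟨n, hn⟩ := h1 g hg
      exact ⟨-n, by rw [map_neg, e', hn]; push_cast; ring⟩
    · rw [h, mul_zero] at hn; linarith
    · exact ⟨β, hβ, e' ▸ h, e' ▸ h1⟩
  let K : Submodule ℤ V := L ⊓ LinearMap.ker t
  haveI : Module.Finite ℤ K := Module.Finite.iff_fg.2 (hL.of_le inf_le_left)
  let d := Module.finrank ℤ K
  let κ0 := Module.finBasis ℤ K
  let κ : Fin d → V := fun j => κ0 j
  have k1 : LinearIndependent ℚ κ := (LinearIndependent.iff_fractionRing ℤ ℚ).1
    (κ0.linearIndependent.map' K.subtype K.ker_subtype)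
  have k2 : ∀ j, tau (κ j) = 0 := fun j => (κ0 j).2.2
  have k3 : ∀ g ∈ L, ∃ (n : ℤ) (c : Fin d → ℤ), tau g = n * tau β ∧ g = n • β + ∑ j, c j • κ j := by
    intro g hg
    obtain ⟨n, hn⟩ := hβ1 g hg
    have h1 : g - n • β ∈ K := ⟨sub_mem hg (L.smul_mem _ hβ), by
      show tau (g - n • β) = 0
      rw [map_sub, map_zsmul, hn, zsmul_eq_mul, sub_self]⟩
    refine ⟨n, fun j => κ0.repr ⟨_, h1⟩ j, hn, ?_⟩
    have := congrArg Subtype.val (κ0.sum_repr ⟨_, h1⟩)
    simp only [AddSubmonoidClass.coe_finsetSum, SetLike.val_smul_of_tower] at this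
    rw [this]
    abel
  choose! n c hn hc using k3
  obtain ⟨m, hm⟩ : ∃ m : ℕ, ∀ g ∈ F, ∀ j, |c g j| < m := by
    refine ⟨(F.sup fun g => Finset.univ.sup fun j => (c g j).natAbs) + 1, fun g hg j => ?_⟩
    have h1 : (c g j).natAbs ≤ Finset.univ.sup fun j => (c g j).natAbs :=
      Finset.le_sup (f := fun j => (c g j).natAbs) (Finset.mem_univ j)
    have h2 := Finset.le_sup (f := fun g => Finset.univ.sup fun j => (c g j).natAbs) hg
    rw [← Int.natCast_natAbs]
    exact_mod_cast Nat.lt_succ_of_le (h1.trans h2)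
  let B := 2 * d * m
  have hB : (B : ℤ) < 3 ^ B := by exact_mod_cast Nat.lt_pow_self (by norm_num)
  let β' : V := ((3 : ℚ) ^ B)⁻¹ • (β - (m : ℤ) • ∑ j, κ j)
  have e1 : β = (3 ^ B : ℤ) • β' + (m : ℤ) • ∑ j, κ j := by
    rw [← Int.cast_smul_eq_zsmul ℚ (3 ^ B), smul_smul]
    push_cast
    rw [mul_inv_cancel₀ (by positivity), one_smul, sub_add_cancel]
  have e2 : 0 < tau β' := by
    rw [map_smul, map_sub, map_zsmul, map_sum]
    simp only [k2, Finset.sum_const_zero, smul_zero, sub_zero, smul_eq_mul]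
    positivity
  have e3 : ∀ g ∈ F, g = ∑ i : Fin (d + 1), (Fin.cons (n g * 3 ^ B - ∑ j, (n g * m + c g j))
      (fun j => n g * m + c g j) : Fin (d + 1) → ℤ) i •
        (Fin.cons β' (fun j => β' + κ j) : Fin (d + 1) → V) i := by
    intro g hg
    rw [Fin.sum_univ_succ]
    simp only [Fin.cons_zero, Fin.cons_succ, smul_add, add_smul, Finset.sum_add_distrib, sub_smul,
      Finset.sum_smul, mul_smul, ← Finset.smul_sum]
    conv_lhs => rw [hc g (Submodule.subset_span hg), e1]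
    rw [smul_add]
    abel
  refine ⟨d, Fin.cons β' fun j => β' + κ j, ?_, fun i => ?_, fun H h1 h2 i => ?_,
    fun g hg => ⟨_, e3 g hg⟩, fun g hg h0 => ?_⟩
  · rw [Fintype.linearIndependent_iff]
    intro a ha
    rw [Fin.sum_univ_succ] at ha
    simp only [Fin.cons_zero, Fin.cons_succ, smul_add, Finset.sum_add_distrib,
      ← Finset.sum_smul, ← add_assoc, ← add_smul] at ha
    have h1 := congrArg tau ha
    rw [map_add, map_sum, map_smul] at h1
    simp only [map_smul, k2, mul_zero, Finset.sum_const_zero, add_zero, map_zero, smul_eq_mul,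
      mul_eq_zero, e2.ne', or_false] at h1
    rw [h1, zero_smul, zero_add] at ha
    have h2 := Fintype.linearIndependent_iff.1 k1 _ ha
    simp only [h2, Finset.sum_const_zero, add_zero] at h1
    exact Fin.cases h1 h2
  · refine Fin.cases e2 (fun j => ?_) i
    simp only [Fin.cons_succ, map_add, k2, add_zero]
    exact e2
  · have hLH : ∀ g ∈ L, g ∈ H := fun g hg =>
      (Submodule.span_le (p := H.toIntSubmodule)).2 h2 hg
    have h3 : ∀ (k : ℕ) h, h ∈ H → ((3 : ℚ) ^ k)⁻¹ • h ∈ H := fun k h hh => by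
      induction k with
      | zero => simpa using hh
      | succ k ih =>
        rw [pow_succ', mul_inv, mul_smul]
        exact h1 _ ih
    have h4 : ∀ j, κ j ∈ H := fun j => hLH _ (κ0 j).2.1
    have h5 : β' ∈ H := h3 _ _ (sub_mem (hLH _ hβ) (zsmul_mem (sum_mem fun j _ => h4 j) _))
    exact Fin.cases h5 (fun j => add_mem h5 (h4 j)) i
  · have n1 : 1 ≤ n g := by
      rw [hn g (Submodule.subset_span hg)] at h0
      have := (mul_pos_iff_of_pos_right hβ0).1 h0
      exact_mod_cast this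
    have p1 : ∀ j, 0 < n g * m + c g j := fun j => by
      have := abs_lt.1 (hm g hg j)
      nlinarith
    have p2 : 0 < n g * 3 ^ B - ∑ j, (n g * m + c g j) := by
      have : ∑ j, (n g * m + c g j) ≤ ∑ _j : Fin d, n g * (2 * m) := Finset.sum_le_sum fun j _ => by
        have := abs_lt.1 (hm g hg j)
        nlinarith
      rw [Finset.sum_const, Finset.card_univ, Fintype.card_fin, nsmul_eq_mul] at this
      have e : (B : ℤ) = 2 * d * m := by simp [B]
      nlinarith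
    have p3 : ∀ i, 0 < (Fin.cons (n g * 3 ^ B - ∑ j, (n g * m + c g j))
      (fun j => n g * m + c g j) : Fin (d + 1) → ℤ) i := Fin.cases p2 p1
    refine ⟨fun i => Int.toNat _, fun i => Int.lt_toNat.2 (p3 i), (e3 g hg).trans
      (Finset.sum_congr rfl fun i _ => ?_)⟩
    rw [← natCast_zsmul, Int.toNat_of_nonneg (p3 i).le]

end Pool.Agent.H.MP_5f80dd_lc
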