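import Mathlib
import Pool.Agent.H.MP_5f80dd_lc.C

namespace Pool.Agent.H.MP_5f80dd_lc

open Set

/-- a combinatorial system of matrix units -/
structure Sy {P W : Type} (c : P → W) (Ω : Type) where
  θ : Ω → P
  a : P → Ω → Ω
  h1 : ∀ p ω, c p = c (θ ω) → θ (a p ω) = p
  h2 : ∀ p q ω, c p = c (θ ω) → c q = c (θ ω) → a q (a p ω) = a q ω
  h3 : ∀ ω, a (θ ω) ω = ω

variable {P W P' W' P'' W'' Ω Ω₂ K : Type} {c : P → W} {c' : P' → W'} {c'' : P'' → W''}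

def Sy.Pres (g : Sy c Ω) (κ : Ω → K) : Prop := ∀ p ω, c p = c (g.θ ω) → κ (g.a p ω) = κ ω

def Iw (Ξ : Ω → Ω₂) (g : Sy c Ω) (h : Sy c Ω₂) : Prop :=
  (∀ ω, h.θ (Ξ ω) = g.θ ω) ∧ ∀ p ω, c p = c (g.θ ω) → Ξ (g.a p ω) = h.a p (Ξ ω)

def Sy.comp (μ : Sy c P') (hμ : μ.Pres c') (g : Sy c' Ω) : Sy c Ω where
  θ ω := μ.θ (g.θ ω)
  a p ω := g.a (μ.a p (g.θ ω)) ω
  h1 p ω h := by rw [g.h1 _ _ (hμ _ _ h), μ.h1 _ _ h]
  h2 p q ω h h' := by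
    rw [g.h1 _ _ (hμ _ _ h), μ.h2 _ _ _ h h', g.h2 _ _ _ (hμ _ _ h) (hμ _ _ h')]
  h3 ω := by rw [μ.h3, g.h3]

theorem Sy.Pres.comp {μ : Sy c P'} (hμ : μ.Pres c') {g : Sy c' Ω} {κ : Ω → K} (hg : g.Pres κ) :
    (μ.comp hμ g).Pres κ := fun _ _ h => hg _ _ (hμ _ _ h)

def Sy.pull (g : Sy c Ω₂) (Ξ : Ω ≃ Ω₂) : Sy c Ω where
  θ ω := g.θ (Ξ ω)
  a p ω := Ξ.symm (g.a p (Ξ ω))
  h1 p ω h := by rw [Ξ.apply_symm_apply, g.h1 _ _ h]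
  h2 p q ω h h' := by rw [Ξ.apply_symm_apply, g.h2 _ _ _ h h']
  h3 ω := by rw [g.h3, Ξ.symm_apply_apply]

def Sy.id (c : P → W) : Sy c P where
  θ p := p
  a p _ := p
  h1 _ _ _ := rfl
  h2 _ _ _ _ _ := rfl
  h3 _ := rfl

theorem Iw.trans {Ω₃ : Type} {Ξ : Ω → Ω₂} {Ξ' : Ω₂ → Ω₃} {g : Sy c Ω} {h : Sy c Ω₂} {k : Sy c Ω₃}
    (a : Iw Ξ g h) (b : Iw Ξ' h k) : Iw (fun ω => Ξ' (Ξ ω)) g k :=
  ⟨fun ω => (b.1 _).trans (a.1 ω), fun p ω e => by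
    beta_reduce
    rw [a.2 p ω e, b.2 p _ (by rw [a.1]; exact e)]⟩

theorem Iw.symm {g h : Sy c Ω} (a : Iw (fun ω => ω) g h) : Iw (fun ω => ω) h g :=
  ⟨fun ω => (a.1 ω).symm, fun p ω e => (a.2 p ω (e.trans (congrArg c (a.1 ω)))).symm⟩

theorem Iw.comp {Ξ : Ω → Ω₂} {g : Sy c' Ω} {h : Sy c' Ω₂} (a : Iw Ξ g h) (μ : Sy c P')
    (hμ : μ.Pres c') : Iw Ξ (μ.comp hμ g) (μ.comp hμ h) :=
  ⟨fun ω => congrArg μ.θ (a.1 ω), fun p ω e => by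
    show Ξ (g.a _ ω) = h.a (μ.a p (h.θ (Ξ ω))) _
    rw [a.2 _ _ (hμ _ _ e), a.1]⟩

theorem Iw.comp' {μ ν : Sy c P'} (a : Iw (fun ω => ω) μ ν) (hμ : μ.Pres c') (hν : ν.Pres c')
    (g : Sy c' Ω) : Iw (fun ω => ω) (μ.comp hμ g) (ν.comp hν g) :=
  ⟨fun _ => a.1 _, fun p ω e => congrArg (g.a · ω) (a.2 p _ e)⟩

theorem iso (g : Sy c Ω) (h : Sy c Ω₂) {κ : Ω → K} {κ₂ : Ω₂ → K} (hg : g.Pres κ) (hh : h.Pres κ₂)
    (H : ∀ x : P × K, Nonempty ({ω // (g.θ ω, κ ω) = x} ≃ {ω // (h.θ ω, κ₂ ω) = x})) :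
    ∃ Ξ : Ω ≃ Ω₂, Iw Ξ g h ∧ ∀ ω, κ₂ (Ξ ω) = κ ω := by
  obtain ⟨Φ, f⟩ : ∃ Φ : Ω ≃ Ω₂, ∀ ω, (h.θ (Φ ω), κ₂ (Φ ω)) = (g.θ ω, κ ω) :=
    ⟨_, Equiv.ofFiberEquiv_map (f := fun ω => (g.θ ω, κ ω)) (g := fun ω => (h.θ ω, κ₂ ω))
      fun x => (H x).some⟩
  have f1 : ∀ ω, h.θ (Φ ω) = g.θ ω := fun ω => congrArg Prod.fst (f ω)
  have f2 : ∀ ω, g.θ (Φ.symm ω) = h.θ ω := fun ω => by rw [← f1, Φ.apply_symm_apply]
  obtain ⟨β, b1, b2⟩ : ∃ β : P → P, (∀ p, c (β p) = c p) ∧ ∀ p q, c p = c q → β p = β q :=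
    ⟨fun p => Classical.choose (⟨p, rfl⟩ : ∃ q, c q = c p),
      fun p => Classical.choose_spec (⟨p, rfl⟩ : ∃ q, c q = c p), fun p q e => by simp only [e]⟩
  have k1 : ∀ ω, c (g.θ ω) = c (h.θ (Φ (g.a (β (g.θ ω)) ω))) := fun ω => by
    rw [f1, g.h1 _ _ (b1 _), b1]
  have k2 : ∀ ω, c (h.θ ω) = c (g.θ (Φ.symm (h.a (β (h.θ ω)) ω))) := fun ω => by
    rw [f2, h.h1 _ _ (b1 _), b1]
  refine ⟨⟨fun ω => h.a (g.θ ω) (Φ (g.a (β (g.θ ω)) ω)),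
    fun ω => g.a (h.θ ω) (Φ.symm (h.a (β (h.θ ω)) ω)), fun ω => ?_, fun ω => ?_⟩,
    ⟨fun ω => h.h1 _ _ (k1 ω), fun p ω e => ?_⟩, fun ω => ?_⟩
  · have e : h.a (β (g.θ ω)) (Φ (g.a (β (g.θ ω)) ω)) = Φ (g.a (β (g.θ ω)) ω) := by
      conv_rhs => rw [← h.h3 (Φ _), f1, g.h1 _ _ (b1 _)]
    beta_reduce
    rw [h.h1 _ _ (k1 ω), h.h2 _ _ _ (k1 ω) ((b1 _).trans (k1 ω)), e, Φ.symm_apply_apply,
      g.h2 _ _ _ (b1 _) rfl, g.h3]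
  · have e : g.a (β (h.θ ω)) (Φ.symm (h.a (β (h.θ ω)) ω)) = Φ.symm (h.a (β (h.θ ω)) ω) := by
      conv_rhs => rw [← g.h3 (Φ.symm _), f2, h.h1 _ _ (b1 _)]
    beta_reduce
    rw [g.h1 _ _ (k2 ω), g.h2 _ _ _ (k2 ω) ((b1 _).trans (k2 ω)), e, Φ.apply_symm_apply,
      h.h2 _ _ _ (b1 _) rfl, h.h3]
  · show h.a (g.θ (g.a p ω)) (Φ (g.a (β (g.θ (g.a p ω))) (g.a p ω)))
      = h.a p (h.a (g.θ ω) (Φ (g.a (β (g.θ ω)) ω)))
    rw [g.h1 _ _ e, g.h2 _ _ _ e ((b1 _).trans e), h.h2 _ _ _ (k1 ω) (e.trans (k1 ω)), b2 _ _ e]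
  · show κ₂ (h.a (g.θ ω) (Φ (g.a (β (g.θ ω)) ω))) = κ ω
    rw [hh _ _ (k1 ω)]
    exact (congrArg Prod.snd (f _)).trans (hg _ _ (b1 _))

theorem factor (i : Sy c P') (hi : i.Pres c') (g : Sy c Ω) (h : Sy c' Ω₂) {κ : Ω → K} {κ₂ : Ω₂ → K}
    (hg : g.Pres κ) (hh : h.Pres κ₂)
    (H : ∀ x : P × K, Nonempty ({ω // (g.θ ω, κ ω) = x} ≃ {ω // (i.θ (h.θ ω), κ₂ ω) = x})) :
    ∃ g' : Sy c' Ω, g'.Pres κ ∧ Iw (fun ω => ω) g (i.comp hi g') ∧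
      ∃ Ξ : Ω ≃ Ω₂, ∀ ω, g'.θ ω = h.θ (Ξ ω) ∧ κ₂ (Ξ ω) = κ ω := by
  obtain ⟨Ξ, a, b⟩ := iso g (i.comp hi h) hg (hi.comp hh) H
  refine ⟨h.pull Ξ, fun p ω e => ?_, ⟨a.1, fun p ω e => ?_⟩, Ξ, fun ω => ⟨rfl, b ω⟩⟩
  · rw [← b, ← b ω]
    show κ₂ (Ξ (Ξ.symm _)) = _
    rw [Ξ.apply_symm_apply, hh _ _ e]
  · exact Ξ.eq_symm_apply.2 (a.2 p ω e)

theorem mkSy [Finite P] [Finite W'] (c : P → W) (m : W → W' → ℕ) :
    ∃ (N : ℕ) (κ : Fin N → W') (μ : Sy c (Fin N)), μ.Pres κ ∧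
      ∀ p w, Nat.card {q // (μ.θ q, κ q) = (p, w)} = m (c p) w := by
  classical
  let T := {x : P × W' × ℕ // x.2.2 < m (c x.1) x.2.1}
  have e : T ≃ Σ x : P × W', Fin (m (c x.1) x.2) :=
    ⟨fun x => ⟨(x.1.1, x.1.2.1), ⟨x.1.2.2, x.2⟩⟩, fun x => ⟨(x.1.1, x.1.2, x.2), x.2.2⟩,
      fun _ => rfl, fun _ => rfl⟩
  haveI : Finite T := Finite.of_equiv _ e.symm
  let μ : Sy c T :=
    { θ := fun x => x.1.1
      a := fun p x => if h : c p = c x.1.1 then ⟨(p, x.1.2), by rw [h]; exact x.2⟩ else x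
      h1 := fun p x h => by rw [dif_pos h]
      h2 := fun p q x h h' => by rw [dif_pos h, dif_pos h', dif_pos (h'.trans h.symm)]
      h3 := fun x => by rw [dif_pos rfl] }
  let Ξ := (Finite.equivFin T).symm
  refine ⟨_, fun q => (Ξ q).1.2.1, μ.pull Ξ, fun p q h => ?_, fun p w => ?_⟩
  · show (Ξ (Ξ.symm (μ.a p (Ξ q)))).1.2.1 = _
    rw [Ξ.apply_symm_apply]
    have h' : c p = c (Ξ q).1.1 := h
    simp only [μ, dif_pos h']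
  · refine (Nat.card_congr ((Ξ.subtypeEquiv (q := fun x => (x.1.1, x.1.2.1) = (p, w))
      fun _ => Iff.rfl).trans ?_)).trans (Nat.card_fin _)
    exact ⟨fun x => ⟨x.1.1.2.2, by
        have := x.1.2
        rwa [show x.1.1.1 = p from congrArg Prod.fst x.2,
          show x.1.1.2.1 = w from congrArg Prod.snd x.2] at this⟩,
      fun j => ⟨⟨(p, w, j), j.2⟩, rfl⟩, by rintro ⟨⟨⟨_, _, j⟩, h⟩, ⟨⟩⟩; rfl, fun _ => rfl⟩

def Rp [Fintype P'] [DecidableEq P] (u : P → V) (θ : P' → P) (u' : P' → V) : Prop :=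
  ∀ p, u p = ∑ q with θ q = p, u' q

theorem cell_sum [Fintype P'] [DecidableEq P] [Fintype W'] (θ : P' → P) (κ : P' → W') (b : W' → V)
    (p : P) : ∑ q with θ q = p, b (κ q) = ∑ w, Nat.card {q // (θ q, κ q) = (p, w)} • b w := by
  classical
  rw [← Finset.sum_fiberwise (g := κ)]
  refine Finset.sum_congr rfl fun w _ => ?_
  rw [Finset.sum_congr rfl (g := fun _ => b w) fun q hq => by rw [(Finset.mem_filter.1 hq).2],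
    Finset.sum_const, Nat.subtype_card (Finset.univ.filter fun q => θ q = p ∧ κ q = w) (by simp),
    Finset.filter_filter]

theorem Rp.comp [Fintype P'] [Fintype P''] [DecidableEq P] [DecidableEq P'] {u : P → V}
    {θ : P' → P} {u' : P' → V} {θ' : P'' → P'} {u'' : P'' → V} (h : Rp u θ u')
    (h' : Rp u' θ' u'') : Rp u (fun q => θ (θ' q)) u'' := by
  intro p
  rw [h, ← Finset.sum_fiberwise_of_maps_to (s := Finset.univ.filter fun q => θ (θ' q) = p)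
    (t := Finset.univ.filter fun q => θ q = p) (g := θ') (by simp)]
  refine Finset.sum_congr rfl fun q hq => ?_
  rw [h', Finset.filter_filter]
  refine Finset.sum_congr (Finset.filter_congr fun r _ => ?_) fun _ _ => rfl
  exact ⟨fun e => ⟨by rw [e]; exact (Finset.mem_filter.1 hq).2, e⟩, fun e => e.2⟩

theorem elliott {N N' M d : ℕ} {c : Fin N → W} {c' : Fin N' → W'} {κ : Fin M → Fin d}
    {b : Fin d → V} (hb : LinearIndependent ℚ b) (i : Sy c (Fin N')) (hi : i.Pres c')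
    {u : Fin N → V} {u' : W' → V} (h1 : Rp u i.θ fun q => u' (c' q)) (g : Sy c (Fin M))
    (hg : g.Pres κ) (h2 : Rp u g.θ fun q => b (κ q))
    (h3 : ∀ v, ∃ S : Fin d → ℕ, u' v = ∑ w, S w • b w) :
    ∃ g' : Sy c' (Fin M), g'.Pres κ ∧ Iw (fun ω => ω) g (i.comp hi g') ∧
      Rp (fun q => u' (c' q)) g'.θ fun q => b (κ q) := by
  choose S hS using h3
  obtain ⟨M₂, κ₂, h, hh, cnt⟩ := mkSy c' S
  have r1 : Rp (fun q => u' (c' q)) h.θ fun q => b (κ₂ q) := fun p => by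
    simp only [cell_sum, cnt, hS]
  obtain ⟨g', a1, a2, Ξ, a3⟩ := factor i hi g h hg hh fun ⟨p, w⟩ => by
    have e := (h2 p).symm.trans (h1.comp r1 p)
    rw [cell_sum, cell_sum, ← sub_eq_zero, ← Finset.sum_sub_distrib] at e
    simp only [← Nat.cast_smul_eq_nsmul ℚ, ← sub_smul] at e
    have := Fintype.linearIndependent_iff.1 hb _ e w
    rw [sub_eq_zero, Nat.cast_inj] at this
    exact Finite.card_eq.1 this
  refine ⟨g', a1, a2, fun p => (r1 p).trans ?_⟩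
  exact (Finset.sum_equiv Ξ (fun q => by simp [(a3 q).1]) fun q _ => by rw [(a3 q).2]).symm

theorem refine {N N' : ℕ} {c : Fin N → W} {c' : Fin N' → W'} (i : Sy c (Fin N')) (hi : i.Pres c')
    (hs : Function.Surjective i.θ) (g : Sy c ℕ) (hg : ∀ p, {ω | g.θ ω = p}.Infinite) :
    ∃ g' : Sy c' ℕ, (∀ p, {ω | g'.θ ω = p}.Infinite) ∧ Iw (fun ω => ω) g (i.comp hi g') := by
  let h : Sy c' (Fin N' × ℕ) :=
    ⟨Prod.fst, fun p x => (p, x.2), fun _ _ _ => rfl, fun _ _ _ _ _ => rfl, fun _ => rfl⟩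
  obtain ⟨g', -, a2, Ξ, a3⟩ := factor (κ := fun _ => ()) (κ₂ := fun _ => ()) i hi g h
    (fun _ _ _ => rfl) (fun _ _ _ => rfl) fun ⟨p, w⟩ => by
      haveI : Infinite {ω // (g.θ ω, ()) = (p, w)} :=
        Set.Infinite.to_subtype (s := {ω | (g.θ ω, ()) = (p, w)})
          ((hg p).mono fun ω h => Prod.ext h rfl)
      obtain ⟨q, hq⟩ := hs p
      haveI : Infinite {ω : Fin N' × ℕ // (i.θ (h.θ ω), ()) = (p, w)} :=
        Infinite.of_injective (fun k : ℕ => ⟨(q, k), Prod.ext hq rfl⟩) fun _ _ e =>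
          congrArg (fun x => x.1.2) e
      exact nonempty_equiv_of_countable
  refine ⟨g', fun p => infinite_of_injective_forall_mem (f := fun k : ℕ => Ξ.symm (p, k))
    (fun _ _ e => congrArg Prod.snd (Ξ.symm.injective e)) fun k => ?_, a2⟩
  show g'.θ _ = p
  rw [(a3 _).1, Ξ.apply_symm_apply]

end Pool.Agent.H.MP_5f80dd_lc
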