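import Mathlib

namespace Pool.Agent.H.MP_5f80dd_lc

/-- the inner product -/
def ip {K : Type} [NormedAddCommGroup K] [InnerProductSpace ℂ K] (x y : K) : ℂ :=
  @inner ℂ K InnerProductSpace.toInner x y

/-- the Borel structure generated by the matrix coefficients -/
noncomputable def wot (H : Type) [NormedAddCommGroup H] [InnerProductSpace ℂ H] :
    MeasurableSpace (H →L[ℂ] H) :=
  ⨆ (ξ : H) (η : H), MeasurableSpace.comap (fun a : H →L[ℂ] H => ip (a ξ) η) Complex.measurableSpace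

/-- complete positivity of a map into the operators on a Hilbert space -/
def CP {R K : Type} [Mul R] [Star R] [NormedAddCommGroup K] [InnerProductSpace ℂ K]
    (f : R → K →L[ℂ] K) : Prop :=
  ∀ (k : ℕ) (x : Fin k → R) (ξ : Fin k → K),
    0 ≤ (∑ i, ∑ j, ip (ξ i) (f (star (x i) * x j) (ξ j))).re ∧
      (∑ i, ∑ j, ip (ξ i) (f (star (x i) * x j) (ξ j))).im = 0

/-- the matrix algebra with its operator norm -/
abbrev Mn (n : ℕ) := EuclideanSpace ℂ (Fin n) →L[ℂ] EuclideanSpace ℂ (Fin n)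

variable {H : Type} [NormedAddCommGroup H] [InnerProductSpace ℂ H] [CompleteSpace H]

/-- the C⋆-algebra generated by a sequence -/
noncomputable def Cs (γ : ℕ → H →L[ℂ] H) : NonUnitalStarSubalgebra ℂ (H →L[ℂ] H) :=
  (NonUnitalStarAlgebra.adjoin ℂ (Set.range γ)).topologicalClosure

/-- approximately finite-dimensional -/
def AF (A : NonUnitalStarSubalgebra ℂ (H →L[ℂ] H)) : Prop :=
  ∃ M : ℕ → NonUnitalStarSubalgebra ℂ (H →L[ℂ] H), Monotone M ∧ (∀ n, FiniteDimensional ℂ (M n)) ∧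
    (A : Set (H →L[ℂ] H)) = closure (⋃ n, (M n : Set (H →L[ℂ] H)))

/-- simple -/
def Simple (A : NonUnitalStarSubalgebra ℂ (H →L[ℂ] H)) : Prop :=
  A ≠ ⊥ ∧ ∀ I : TwoSidedIdeal A, IsClosed (I : Set A) → I = ⊥ ∨ I = ⊤

/-- embeddability -/
def Emb (A B : NonUnitalStarSubalgebra ℂ (H →L[ℂ] H)) : Prop :=
  ∃ ψ : A →⋆ₙₐ[ℂ] B, Function.Injective ψ

end Pool.Agent.H.MP_5f80dd_lc
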