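import Pool.Agent.H.MP_5f80dd_lc.Defs

namespace Pool.Agent.H.MP_5f80dd_lc.S

variable {B C : Type} [CStarAlgebra B] [CStarAlgebra C]

/-- a (non-unital) star subalgebra -/
def Sa (S : Set B) : Prop :=
  0 ∈ S ∧ ∀ a ∈ S, star a ∈ S ∧ (∀ c : ℂ, c • a ∈ S) ∧ ∀ b ∈ S, a + b ∈ S ∧ a * b ∈ S

/-- the C⋆-algebra generated by a sequence -/
def Cs (γ : ℕ → B) : Set B := ⋂₀ {S | Sa S ∧ IsClosed S ∧ ∀ n, γ n ∈ S}

/-- approximately finite-dimensional -/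
def AF (A : Set B) : Prop :=
  ∃ M : ℕ → Set B, Monotone M ∧
    (∀ n, Sa (M n) ∧ ∃ s : Finset B, M n ⊆ Submodule.span ℂ (s : Set B)) ∧ A = closure (⋃ n, M n)

/-- simple -/
def Simple (A : Set B) : Prop :=
  A ≠ {0} ∧ ∀ I ⊆ A, IsClosed I → 0 ∈ I →
    (∀ x ∈ I, (∀ y ∈ I, x - y ∈ I) ∧ ∀ a ∈ A, a * x ∈ I ∧ x * a ∈ I) → I = {0} ∨ I = A

/-- linear on `A` -/
def Lin (A : Set B) (f : B → C) : Prop :=
  ∀ a ∈ A, ∀ b ∈ A, ∀ c : ℂ, f (c • a + b) = c • f a + f b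

/-- embeddability -/
def Emb (A A' : Set B) : Prop :=
  ∃ f : B → B, Set.MapsTo f A A' ∧ Set.InjOn f A ∧ Lin A f ∧
    ∀ a ∈ A, f (star a) = star (f a) ∧ ∀ b ∈ A, f (a * b) = f a * f b

/-- linear, contractive and completely positive on `A` -/
def CCP (A : Set B) (f : B → C) : Prop :=
  Lin A f ∧ (∀ a ∈ A, ‖f a‖ ≤ ‖a‖) ∧ ∀ (k : ℕ) (x : Fin k → B) (y : Fin k → C), (∀ i, x i ∈ A) →
    ∃ z, ∑ i, ∑ j, star (y i) * f (star (x i) * x j) * y j = star z * z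

/-- approximation of the identity on `S` through `C` -/
def Apx (C : Type) [CStarAlgebra C] (A S : Set B) (ε : ℝ) : Prop :=
  ∃ (φ : B → C) (ψ : C → B), CCP A φ ∧ CCP Set.univ ψ ∧ (∀ m, ψ m ∈ A) ∧ ∀ a ∈ S, ‖ψ (φ a) - a‖ < ε

/-- nuclear: the completely positive approximation property -/
def Nuclear (A : Set B) : Prop :=
  ∀ S ⊆ A, S.Finite → ∀ ε : ℝ, 0 < ε → ∃ n : ℕ, Apx (Mn n) A S ε

end Pool.Agent.H.MP_5f80dd_lc.S
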