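import Mathlib

namespace Pool.Agent.H.MP_5f80dd_lc

open Set Filter Topology

variable {A : Type} [CStarAlgebra A]

theorem pert (M : NonUnitalStarSubalgebra ℂ A) (hM : IsClosed (M : Set A)) {p a : A}
    (hp : IsStarProjection p) (ha : a ∈ M) {δ : ℝ} (hδ : δ ≤ 1 / 32) (h : ‖p - a‖ ≤ δ) :
    ∃ q ∈ M, IsStarProjection q ∧ ‖p - q‖ ≤ 9 * δ := by
  obtain ⟨a, ha, sa, h⟩ : ∃ a ∈ M, IsSelfAdjoint a ∧ ‖p - a‖ ≤ δ := by
    refine ⟨(2⁻¹ : ℂ) • (a + star a), SMulMemClass.smul_mem _ (add_mem ha (star_mem ha)), ?_, ?_⟩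
    · simp [IsSelfAdjoint, add_comm]
    · have e : p - (2⁻¹ : ℂ) • (a + star a) = (2⁻¹ : ℂ) • ((p - a) + star (p - a)) := by
        rw [star_sub, hp.isSelfAdjoint.star_eq]
        module
      rw [e, norm_smul]
      have := norm_add_le (p - a) (star (p - a))
      rw [norm_star] at this
      simp only [norm_inv, Complex.norm_ofNat]
      linarith
  have d0 : 0 ≤ δ := (norm_nonneg _).trans h
  have n1 := hp.norm_le
  have n2 : ‖a‖ ≤ 2 := by
    have := norm_sub_le p (p - a)
    rw [sub_sub_cancel] at this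
    linarith
  have n3 : ‖a * a - a‖ ≤ 4 * δ := by
    have e : a * a - a = (p - a) - a * (p - a) - (p - a) * p := by
      simp only [mul_sub, sub_mul, hp.isIdempotentElem.eq]; abel
    rw [e]
    have b1 := norm_mul_le a (p - a)
    have b2 := norm_mul_le (p - a) p
    have b3 := norm_sub_le (p - a - a * (p - a)) ((p - a) * p)
    have b4 := norm_sub_le (p - a) (a * (p - a))
    nlinarith [norm_nonneg (p - a)]
  have sp : ∀ x ∈ quasispectrum ℝ a, |x * x - x| ≤ 4 * δ := fun x hx => by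
    have := norm_apply_le_norm_cfcₙ (fun x : ℝ => x * x - x) a hx
    rw [cfcₙ_sub (fun x : ℝ => x * x) (fun x => x), cfcₙ_mul (fun x : ℝ => x) (fun x => x),
      cfcₙ_id' ℝ a] at this
    exact this.trans n3
  let φ : ℝ → ℝ := fun x => max 0 (min 1 (2 * x - 1 / 2))
  have φ0 : φ 0 = 0 := by norm_num [φ]
  have φc : Continuous φ := by fun_prop
  have key : ∀ x ∈ quasispectrum ℝ a, φ x * φ x = φ x ∧ |φ x - x| ≤ 8 * δ := fun x hx => by
    have := abs_le.1 (sp x hx)
    by_cases h1 : x ≤ 1 / 4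
    · have : φ x = 0 := max_eq_left (min_le_of_right_le (by linarith))
      rw [this]
      exact ⟨by simp, abs_le.2 ⟨by nlinarith, by nlinarith⟩⟩
    · have h2 : 3 / 4 ≤ x := by nlinarith
      have : φ x = 1 := by
        simp only [φ]
        rw [min_eq_left (by linarith), max_eq_right zero_le_one]
      rw [this]
      exact ⟨by simp, abs_le.2 ⟨by nlinarith, by nlinarith⟩⟩
  refine ⟨cfcₙ φ a, cfcₙ_mem (𝕜' := ℂ) (hs := hM) φ ha, ⟨?_, cfcₙ_predicate φ a⟩, ?_⟩
  · show _ * _ = _
    rw [← cfcₙ_mul φ φ a]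
    exact cfcₙ_congr fun x hx => (key x hx).1
  · have : ‖cfcₙ φ a - a‖ ≤ 8 * δ := by
      have := norm_cfcₙ_le (f := fun x => φ x - x) (a := a) fun x hx => (key x hx).2
      rwa [cfcₙ_sub φ (fun x => x), cfcₙ_id' ℝ a] at this
    have e : p - cfcₙ φ a = (p - a) - (cfcₙ φ a - a) := by abel
    rw [e]
    exact (norm_sub_le _ _).trans (by linarith)

theorem odd (M : NonUnitalStarSubalgebra ℂ A) (h1 : (1 : A) ∈ M) (τ : A →L[ℂ] ℂ)
    (hτ : ∀ a ∈ M, ∀ b ∈ M, τ (a * b) = τ (b * a)) {p q : A} (hp : p ∈ M) (hq : q ∈ M)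
    (ip : p * p = p) (iq : q * q = q) (h : ‖p - q‖ < 1) : τ p = τ q := by
  have c1 : Commute p ((p - q) * (p - q)) := by
    simp only [Commute, SemiconjBy, mul_sub, sub_mul, ← mul_assoc, ip]
    simp only [mul_assoc, ip, iq]
    abel
  have c2 : Commute q ((p - q) * (p - q)) := by
    simp only [Commute, SemiconjBy, mul_sub, sub_mul, ← mul_assoc, iq]
    simp only [mul_assoc, ip, iq]
    abel
  have m : ∀ k, ((p - q) * (p - q)) ^ k ∈ M := fun k => by
    induction k with
    | zero => simpa using h1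
    | succ k ih => rw [pow_succ]; exact mul_mem ih (mul_mem (sub_mem hp hq) (sub_mem hp hq))
  have key : ∀ k, τ (((p - q) * (p - q)) ^ k * (p - q)) = τ (p - q) := fun k => by
    induction k with
    | zero => simp
    | succ k ih =>
      have e : (p - q) * (p - q) * (p - q) = (p - q) - p * q * p + q * p * q := by
        simp only [mul_sub, sub_mul, mul_assoc, ip, iq]
        simp only [← mul_assoc, ip, iq]
        abel
      rw [pow_succ, mul_assoc, e, mul_add, mul_sub _ _ (p * q * p), map_add, map_sub, ih]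
      have d1 := (c1.pow_right k).eq
      have d2 := (c2.pow_right k).eq
      have mk := m k
      generalize ((p - q) * (p - q)) ^ k = X at *
      have e1 : τ (X * (p * q * p)) = τ (X * p * q) := by
        rw [← mul_assoc, hτ _ (mul_mem mk (mul_mem hp hq)) _ hp, ← mul_assoc, d1, mul_assoc,
          ← mul_assoc p, ip, mul_assoc]
      have e2 : τ (X * (q * p * q)) = τ (X * p * q) := by
        rw [← mul_assoc, hτ _ (mul_mem mk (mul_mem hq hp)) _ hq, ← mul_assoc, d2, mul_assoc,
          ← mul_assoc q, iq, ← mul_assoc, hτ _ (mul_mem mk hq) _ hp, ← mul_assoc, d1]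
      rw [e1, e2]
      ring
  have t : Tendsto (fun k => τ (((p - q) * (p - q)) ^ k * (p - q))) atTop (𝓝 (τ (0 * (p - q)))) :=
    (τ.continuous.tendsto _).comp ((tendsto_pow_atTop_nhds_zero_of_norm_lt_one
      ((norm_mul_le _ _).trans_lt (by nlinarith [norm_nonneg (p - q)]))).mul_const _)
  simp only [key, zero_mul, map_zero, tendsto_const_nhds_iff, map_sub] at t
  exact sub_eq_zero.1 t

theorem ideal (M : NonUnitalStarSubalgebra ℂ A) [FiniteDimensional ℂ M] (h1 : (1 : A) ∈ M)
    (B : NonUnitalStarSubalgebra ℂ A) (hB : M ≤ B) (J : AddSubgroup A) (hJ : IsClosed (J : Set A))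
    (hl : ∀ a ∈ B, ∀ x ∈ J, a * x ∈ J) (hr : ∀ a ∈ B, ∀ x ∈ J, x * a ∈ J) {x a : A} (hx : x ∈ J)
    (hxB : x ∈ B) (nx : ‖x‖ = 1) (ha : a ∈ M) (h : ‖x - a‖ < 1 / 8) : ∃ z ∈ M, z ∈ J ∧ z ≠ 0 := by
  haveI : Nontrivial A := ⟨x, 0, fun e => by simp [e] at nx⟩
  have n1 : 7 / 8 ≤ ‖a‖ := by
    have := norm_add_le (x - a) a
    rw [sub_add_cancel] at this
    linarith
  have n2 : ‖a‖ ≤ 9 / 8 := by
    have := norm_sub_le x (x - a)
    rw [sub_sub_cancel] at this
    linarith
  have hh : star a * a ∈ M := mul_mem (star_mem ha) ha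
  obtain ⟨l, l1, l2⟩ : ∃ l : ℝ, |l| = ‖a‖ * ‖a‖ ∧ l ∈ spectrum ℝ (star a * a) := by
    rw [← CStarRing.norm_star_mul_self]
    rcases CStarAlgebra.norm_or_neg_norm_mem_spectrum (IsSelfAdjoint.star_mul_self a) with e | e
    · exact ⟨_, abs_norm _, e⟩
    · exact ⟨_, by rw [abs_neg, abs_norm], e⟩
  let w := algebraMap ℝ A l - star a * a
  have hw : w ∈ M := sub_mem (by
    rw [Algebra.algebraMap_eq_smul_one, ← Complex.coe_smul]; exact SMulMemClass.smul_mem _ h1) hh
  have sw : star w = w := by simp [w, Algebra.algebraMap_eq_smul_one]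
  obtain ⟨z, hz, z0, z1⟩ : ∃ z ∈ M, z ≠ 0 ∧ w * z = 0 := by
    by_contra hn
    push Not at hn
    let L : M →ₗ[ℂ] M := LinearMap.mulLeft ℂ (⟨w, hw⟩ : M)
    have i : Function.Injective L := (injective_iff_map_eq_zero _).2 fun z e =>
      Subtype.ext (by_contra fun z0 => hn z z.2 z0 (congrArg Subtype.val e))
    obtain ⟨z, e⟩ := LinearMap.injective_iff_surjective.1 i ⟨1, h1⟩
    have e1 : w * z = 1 := congrArg Subtype.val e
    have e2 : star (z : A) * w = 1 := by rw [← sw, ← star_mul, e1, star_one]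
    exact l2 ⟨⟨w, z, e1, by rw [← left_inv_eq_right_inv e2 e1]; exact e2⟩, rfl⟩
  have l0 : l ≠ 0 := fun e => by rw [e, abs_zero] at l1; nlinarith
  let η := (l⁻¹ : ℝ) • (star a * (a - x))
  have hη : η ∈ B := by
    simp only [η, ← Complex.coe_smul]
    exact SMulMemClass.smul_mem _ (mul_mem (star_mem (hB ha)) (sub_mem (hB ha) hxB))
  have nη : ‖η‖ < 1 := by
    rw [norm_smul, norm_inv, Real.norm_eq_abs, l1, inv_mul_lt_iff₀ (by positivity)]
    have := norm_mul_le (star a) (a - x)
    rw [norm_star, norm_sub_rev] at this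
    nlinarith
  have k1 : z - η * z ∈ J := by
    have e : z - η * z = ((l⁻¹ : ℝ) • star a) * x * z := by
      have : z = (l⁻¹ : ℝ) • (star a * a * z) := by
        rw [sub_mul, sub_eq_zero, Algebra.algebraMap_eq_smul_one, smul_mul_assoc, one_mul] at z1
        rw [← z1, smul_smul, inv_mul_cancel₀ l0, one_smul]
      conv_lhs => lhs; rw [this]
      simp only [η, mul_sub, sub_mul, smul_sub, smul_mul_assoc]
      abel
    rw [e]
    refine hr _ (hB hz) _ (hl _ ?_ _ hx)
    rw [← Complex.coe_smul]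
    exact SMulMemClass.smul_mem _ (star_mem (hB ha))
  have k2 : ∀ n, z - η ^ n * z ∈ J := fun n => by
    induction n with
    | zero => simp
    | succ n ih =>
      have := add_mem k1 (hl _ hη _ ih)
      rwa [mul_sub, sub_add_sub_cancel, ← mul_assoc, ← pow_succ'] at this
  refine ⟨z, hz, ?_, z0⟩
  have t := ((tendsto_pow_atTop_nhds_zero_of_norm_lt_one nη).mul_const z).const_sub z
  rw [zero_mul, sub_zero] at t
  exact hJ.mem_of_tendsto t (Eventually.of_forall k2)

theorem mid {p p' v : A} (hp : IsStarProjection (p + p')) (h1 : p * p = p) (h2 : p' * p' = p')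
    (h3 : p * p' = 0) (h4 : p' * p = 0) (sp : star p = p) (sp' : star p' = p')
    (v1 : star v * v = p) (v2 : v * star v = p') (v3 : v * p = v) (v4 : p' * v = v) :
    ∃ r, r = (2⁻¹ : ℂ) • (p + p' + v + star v) ∧ IsStarProjection r ∧ ‖p - r‖ ≤ 3 / 4 ∧
      ‖p' - r‖ ≤ 3 / 4 := by
  have a1 : p * v = 0 := by rw [← v4, ← mul_assoc, h3, zero_mul]
  have a2 : v * p' = 0 := by rw [← v3, mul_assoc, h3, mul_zero]
  have a3 : v * v = 0 := by rw [← v3, mul_assoc, ← mul_assoc p, a1, zero_mul, mul_zero]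
  have b1 : star v * p = 0 := by rw [← sp, ← star_mul, a1, star_zero]
  have b2 : p' * star v = 0 := by rw [← sp', ← star_mul, a2, star_zero]
  have b3 : star v * star v = 0 := by rw [← star_mul, a3, star_zero]
  have b4 : p * star v = star v := by rw [← sp, ← star_mul, v3]
  have b5 : star v * p' = star v := by rw [← sp', ← star_mul, v4]
  have key : ∀ d : A, star d = d → d * d = (2⁻¹ : ℂ) • (p + p') → ‖d‖ ≤ 3 / 4 := fun d s e => by
    have := CStarRing.norm_star_mul_self (x := d)
    rw [s, e, norm_smul] at this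
    simp only [norm_inv, Complex.norm_ofNat] at this
    nlinarith [hp.norm_le, norm_nonneg d]
  refine ⟨_, rfl, ⟨?_, ?_⟩, key _ ?_ ?_, key _ ?_ ?_⟩
  · simp only [IsIdempotentElem, smul_mul_assoc, mul_smul_comm, mul_add, add_mul, *]
    module
  · simp only [IsSelfAdjoint, star_smul, star_add, sp, sp', star_star]
    simp only [star_inv₀, star_ofNat]
    module
  · simp only [star_sub, star_smul, star_add, sp, sp', star_star]
    simp only [star_inv₀, star_ofNat]
    module
  · simp only [smul_mul_assoc, mul_smul_comm, mul_add, add_mul, mul_sub, sub_mul, *]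
    module
  · simp only [star_sub, star_smul, star_add, sp, sp', star_star]
    simp only [star_inv₀, star_ofNat]
    module
  · simp only [smul_mul_assoc, mul_smul_comm, mul_add, add_mul, mul_sub, sub_mul, *]
    module

end Pool.Agent.H.MP_5f80dd_lc
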