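import Mathlib
import Pool.Agent.H.MP_5f80dd_lc.D
import Pool.Agent.H.MP_5f80dd_lc.E

namespace Pool.Agent.H.MP_5f80dd_lc

open Set Filter Topology

variable {H : Type} [NormedAddCommGroup H] [InnerProductSpace ℂ H] [CompleteSpace H]
  (e : HilbertBasis ℕ ℂ H)

omit [CompleteSpace H] in
theorem bext {S T : H →L[ℂ] H} (h : ∀ i, S (e i) = T (e i)) : S = T :=
  ContinuousLinearMap.ext_on (Submodule.dense_iff_topologicalClosure_eq_top.2 e.dense_span)
    (forall_mem_range.2 h)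

omit [CompleteSpace H] in
theorem ee (i j : ℕ) : (inner ℂ (e i) (e j) : ℂ) = if i = j then 1 else 0 :=
  orthonormal_iff_ite.1 e.orthonormal i j

theorem star_eq {S T : H →L[ℂ] H} (h : ∀ i j, inner ℂ (e j) (S (e i)) = inner ℂ (T (e j)) (e i)) :
    star T = S := by
  refine bext e fun i => e.repr.injective (lp.ext (funext fun j => ?_))
  rw [e.repr_apply_apply, e.repr_apply_apply, h, ContinuousLinearMap.star_eq_adjoint,
    ContinuousLinearMap.adjoint_inner_right]

noncomputable def U (σ : ℕ ≃ ℕ) : H →L[ℂ] H :=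
  ((e.orthonormal.comp σ σ.injective).orthogonalFamily.linearIsometry.comp
    e.repr.toLinearIsometry).toContinuousLinearMap

theorem U_e (σ : ℕ ≃ ℕ) (i : ℕ) : U e σ (e i) = e (σ i) := by
  simp [U, e.repr_self]

theorem U_star (σ : ℕ ≃ ℕ) : star (U e σ) = U e σ.symm := star_eq e fun i j => by
  rw [U_e, U_e, ee, ee]
  simp only [Equiv.eq_symm_apply]

theorem U_mul (σ : ℕ ≃ ℕ) : U e σ.symm * U e σ = 1 := bext e fun i => by
  simp [U_e]

theorem U_norm (σ : ℕ ≃ ℕ) : ‖U e σ‖ ≤ 1 := LinearIsometry.norm_toContinuousLinearMap_le _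

open Classical in
theorem exP (D : Set ℕ) : ∃ T : H →L[ℂ] H, ∀ i, T (e i) = if i ∈ D then e i else 0 := by
  refine ⟨(Submodule.span ℂ (e '' D)).topologicalClosure.starProjection, fun i => ?_⟩
  split_ifs with h
  · exact Submodule.starProjection_eq_self_iff.2
      (Submodule.le_topologicalClosure _ (Submodule.subset_span ⟨i, h, rfl⟩))
  · rw [Submodule.starProjection_apply_eq_zero_iff, Submodule.orthogonal_closure,
      Submodule.mem_orthogonal]
    intro u hu
    induction hu using Submodule.span_induction with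
    | mem x hx =>
      obtain ⟨j, hj, rfl⟩ := hx
      rw [ee, if_neg (fun a : j = i => h (a ▸ hj))]
    | zero => simp
    | add x y _ _ a b => rw [inner_add_left, a, b, add_zero]
    | smul c x _ a => rw [inner_smul_left, a, mul_zero]

variable {N N' d d' : ℕ} {c : Fin N → Fin d} {c' : Fin N' → Fin d'}

theorem exE (g : Sy c ℕ) (p q : Fin N) : ∃ T : H →L[ℂ] H, ∀ i,
    T (e i) = if c p = c q ∧ g.θ i = q then e (g.a p i) else 0 := by
  by_cases h : c p = c q
  swap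
  · exact ⟨0, fun i => by simp [h]⟩
  let s : ℕ → ℕ := fun i => if g.θ i = q then g.a p i else if g.θ i = p then g.a q i else i
  have hs : Function.Involutive s := fun i => by
    by_cases a : g.θ i = q
    · have b : c p = c (g.θ i) := a ▸ h
      have b2 := g.h2 p q i b (by rw [a])
      by_cases a' : p = q
      · simp only [s, if_pos a, g.h1 _ _ b, if_pos a', g.h2 p p i b b]
        rw [a', ← a, g.h3]
      · simp only [s, if_pos a, g.h1 _ _ b, if_neg a', if_true, b2]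
        rw [← a, g.h3]
    · by_cases a' : g.θ i = p
      · have b : c q = c (g.θ i) := a' ▸ h.symm
        simp only [s, if_neg a, if_pos a', g.h1 _ _ b, if_true, g.h2 q p i b (by rw [a'])]
        rw [← a', g.h3]
      · simp only [s, if_neg a, if_neg a']
  obtain ⟨T, hT⟩ := exP e {i | g.θ i = q}
  refine ⟨U e hs.toPerm * T, fun i => ?_⟩
  by_cases a : g.θ i = q <;> simp [hT, a, h, U_e, s]

noncomputable def E (g : Sy c ℕ) (p q : Fin N) : H →L[ℂ] H := (exE e g p q).choose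

theorem E_e (g : Sy c ℕ) (p q : Fin N) (i : ℕ) :
    E e g p q (e i) = if c p = c q ∧ g.θ i = q then e (g.a p i) else 0 :=
  (exE e g p q).choose_spec i

theorem E_mul (g : Sy c ℕ) (p q r s : Fin N) :
    E e g p q * E e g r s = if q = r ∧ c p = c q then E e g p s else 0 := bext e fun i => by
  rw [mul_apply_eq_comp, E_e]
  by_cases a : c r = c s ∧ g.θ i = s
  · have b : c r = c (g.θ i) := a.2 ▸ a.1
    rw [if_pos a, E_e, g.h1 _ _ b]
    by_cases a' : q = r ∧ c p = c q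
    · obtain ⟨rfl, a'⟩ := a'
      rw [if_pos ⟨a', rfl⟩, if_pos ⟨rfl, a'⟩, E_e, if_pos ⟨a'.trans a.1, a.2⟩,
        g.h2 _ _ _ b (a'.trans b)]
    · rw [if_neg a', if_neg fun x => a' ⟨x.2.symm, x.1⟩]
      rfl
  · rw [if_neg a, map_zero]
    split_ifs with a'
    · obtain ⟨rfl, a'⟩ := a'
      rw [E_e, if_neg fun x => a ⟨a'.symm.trans x.1, x.2⟩]
    · rfl

theorem E_in (g : Sy c ℕ) (p q : Fin N) (i j : ℕ) : (inner ℂ (e j) (E e g p q (e i)) : ℂ)
    = if c p = c q ∧ g.θ i = q ∧ j = g.a p i then 1 else 0 := by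
  rw [E_e]
  by_cases a : c p = c q ∧ g.θ i = q
  · simp [a, ee]
  · rw [if_neg a, inner_zero_right, if_neg fun x => a ⟨x.1, x.2.1⟩]

theorem E_star (g : Sy c ℕ) (p q : Fin N) : star (E e g p q) = E e g q p := star_eq e fun i j => by
  rw [← inner_conj_symm (E e g p q (e j)), E_in, E_in]
  have key : ∀ p q i j, c q = c p ∧ g.θ i = p ∧ j = g.a q i → c p = c q ∧ g.θ j = q ∧ i = g.a p j := by
    rintro p q i j ⟨a, rfl, rfl⟩
    exact ⟨a.symm, g.h1 _ _ a, by rw [g.h2 _ _ _ a rfl, g.h3]⟩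
  by_cases a : c q = c p ∧ g.θ i = p ∧ j = g.a q i
  · rw [if_pos a, if_pos (key _ _ _ _ a), map_one]
  · rw [if_neg a, if_neg fun x => a (key _ _ _ _ x), map_zero]

theorem E_sum (g : Sy c ℕ) : ∑ p, E e g p p = 1 := bext e fun i => by
  simp [E_e, g.h3]

theorem E_comp {g : Sy c ℕ} {g' : Sy c' ℕ} {μ : Sy c (Fin N')} {hμ : μ.Pres c'}
    (h : Iw (fun ω => ω) g (μ.comp hμ g')) (p q : Fin N) (hc : c p = c q) :
    E e g p q = ∑ q' with μ.θ q' = q, E e g' (μ.a p q') q' := bext e fun i => by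
  rw [sum_apply, E_e, Finset.sum_filter, Finset.sum_eq_single (g'.θ i)]
  · have a1 : μ.θ (g'.θ i) = g.θ i := h.1 i
    rw [a1]
    by_cases a : g.θ i = q
    · rw [if_pos ⟨hc, a⟩, if_pos a, E_e, if_pos ⟨hμ _ _ (by rw [a1, a, hc]), rfl⟩]
      exact congrArg e (h.2 p i (by rw [a, hc]))
    · rw [if_neg a, if_neg fun x => a x.2]
  · intro q' _ hq
    split_ifs
    · rw [E_e, if_neg (fun x => hq x.2.symm)]
    · rfl
  · simp

theorem E_zero (g : Sy c ℕ) {p q : Fin N} (hc : c p ≠ c q) : E e g p q = 0 := bext e fun i => by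
  simp [E_e, hc]

theorem E_conj {Ξ : ℕ ≃ ℕ} {g h : Sy c ℕ} (a : Iw Ξ g h) (p q : Fin N) :
    U e Ξ * E e g p q * U e Ξ.symm = E e h p q := bext e fun i => by
  obtain ⟨i, rfl⟩ := Ξ.surjective i
  simp only [mul_apply_eq_comp, U_e, Ξ.symm_apply_apply, E_e, a.1]
  split_ifs with b
  · rw [U_e, a.2 _ _ (b.2 ▸ b.1)]
  · simp

noncomputable def Alg (g : Sy c ℕ) : NonUnitalStarSubalgebra ℂ (H →L[ℂ] H) where
  toAddSubmonoid := (Submodule.span ℂ (range fun q : Fin N × Fin N => E e g q.1 q.2)).toAddSubmonoid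
  smul_mem' a _ h := Submodule.smul_mem _ a h
  mul_mem' {a b} ha hb := by
    refine Submodule.span_induction₂ (p := fun a b _ _ => a * b ∈ Submodule.span ℂ _)
      ?_ (by simp) (by simp) (fun x y z _ _ _ a b => by rw [add_mul]; exact add_mem a b)
      (fun x y z _ _ _ a b => by rw [mul_add]; exact add_mem a b)
      (fun r x y _ _ a => by rw [smul_mul_assoc]; exact Submodule.smul_mem _ _ a)
      (fun r x y _ _ a => by rw [mul_smul_comm]; exact Submodule.smul_mem _ _ a) ha hb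
    rintro _ _ ⟨q, rfl⟩ ⟨r, rfl⟩
    rw [E_mul]
    split_ifs
    · exact Submodule.subset_span ⟨(q.1, r.2), rfl⟩
    · exact zero_mem _
  star_mem' {a} ha := by
    refine Submodule.span_induction (p := fun a _ => star a ∈ Submodule.span ℂ _) ?_ (by simp)
      (fun x y _ _ a b => by rw [star_add]; exact add_mem a b)
      (fun r x _ a => by rw [star_smul]; exact Submodule.smul_mem _ _ a) ha
    rintro _ ⟨q, rfl⟩
    rw [E_star]
    exact Submodule.subset_span ⟨(q.2, q.1), rfl⟩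

theorem E_mem (g : Sy c ℕ) (p q : Fin N) : E e g p q ∈ Alg e g :=
  Submodule.subset_span ⟨(p, q), rfl⟩

theorem Alg_ind {g : Sy c ℕ} {β : Type} [AddCommMonoid β] [Module ℂ β]
    (f f' : (H →L[ℂ] H) →ₗ[ℂ] β) (h : ∀ p q, f (E e g p q) = f' (E e g p q)) {T : H →L[ℂ] H}
    (hT : T ∈ Alg e g) : f T = f' T :=
  LinearMap.eqOn_span (s := range fun q : Fin N × Fin N => E e g q.1 q.2)
    (by rintro _ ⟨q, rfl⟩; exact h _ _) hT

theorem Alg_le {g : Sy c ℕ} (S : Submodule ℂ (H →L[ℂ] H)) (h : ∀ p q, E e g p q ∈ S)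
    {T : H →L[ℂ] H} (hT : T ∈ Alg e g) : T ∈ S :=
  (Submodule.span_le (s := range fun q : Fin N × Fin N => E e g q.1 q.2)).2
    (by rintro _ ⟨q, rfl⟩; exact h _ _) hT

theorem one_mem (g : Sy c ℕ) : (1 : H →L[ℂ] H) ∈ Alg e g :=
  E_sum e g ▸ sum_mem fun p _ => E_mem e g p p

instance (g : Sy c ℕ) : FiniteDimensional ℂ (Alg e g) :=
  FiniteDimensional.span_of_finite ℂ (finite_range fun q : Fin N × Fin N => E e g q.1 q.2)

theorem Alg_closed (g : Sy c ℕ) : IsClosed (Alg e g : Set (H →L[ℂ] H)) :=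
  haveI := FiniteDimensional.span_of_finite ℂ (finite_range fun q : Fin N × Fin N => E e g q.1 q.2)
  (Submodule.span ℂ (range fun q : Fin N × Fin N => E e g q.1 q.2)).closed_of_finiteDimensional

theorem Alg_mono {g : Sy c ℕ} {g' : Sy c' ℕ} {μ : Sy c (Fin N')} {hμ : μ.Pres c'}
    (h : Iw (fun ω => ω) g (μ.comp hμ g')) : Alg e g ≤ Alg e g' := fun _ =>
  Alg_le e (Alg e g').toNonUnitalSubalgebra.toSubmodule fun p q => by
    by_cases hc : c p = c q
    · rw [E_comp e h p q hc]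
      exact sum_mem fun _ _ => E_mem e _ _ _
    · rw [E_zero e g hc]
      exact zero_mem _

/-- matrix coefficients -/
noncomputable def co (i j : ℕ) : (H →L[ℂ] H) →L[ℂ] ℂ :=
  (innerSL ℂ (e i)).comp (ContinuousLinearMap.apply ℂ H (e j))

omit [CompleteSpace H] in
theorem co_apply (i j : ℕ) (T : H →L[ℂ] H) : co e i j T = inner ℂ (e i) (T (e j)) := rfl

theorem co_diag {g : Sy c ℕ} {T : H →L[ℂ] H} (hT : T ∈ Alg e g) {i j : ℕ} (h : g.θ i = g.θ j) :
    co e i i T = co e j j T := by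
  refine Alg_ind e (co e i i).toLinearMap (co e j j).toLinearMap (fun p q => ?_) hT
  have key : ∀ i, (c p = c q ∧ g.θ i = q ∧ i = g.a p i) ↔ (g.θ i = q ∧ p = q) := fun i =>
    ⟨fun ⟨a, b, d⟩ => ⟨b, by rw [← g.h1 p i (b ▸ a), ← d, b]⟩, by
      rintro ⟨rfl, rfl⟩; exact ⟨rfl, rfl, (g.h3 i).symm⟩⟩
  simp only [ContinuousLinearMap.coe_coe, co_apply, E_in, key]
  rw [h]

noncomputable def Mt (g : Sy c ℕ) (ω : ℕ) (T : H →L[ℂ] H) :
    Matrix {p // c p = c (g.θ ω)} {p // c p = c (g.θ ω)} ℂ :=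
  fun p q => co e (g.a p ω) (g.a q ω) T

theorem Mt_mul (g : Sy c ℕ) (ω : ℕ) (S : H →L[ℂ] H) {T : H →L[ℂ] H} (hT : T ∈ Alg e g) :
    Mt e g ω (S * T) = Mt e g ω S * Mt e g ω T := by
  ext p q
  have := Alg_ind e ((co e (g.a p ω) (g.a q ω)).toLinearMap ∘ₗ LinearMap.mulLeft ℂ S)
    (∑ r : {p // c p = c (g.θ ω)}, Mt e g ω S p r • (co e (g.a r ω) (g.a q ω)).toLinearMap)
    (fun s t => ?_) hT
  · simpa [Matrix.mul_apply, Mt] using this
  · simp only [LinearMap.comp_apply, LinearMap.mulLeft_apply, ContinuousLinearMap.coe_coe,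
      LinearMap.sum_apply, LinearMap.smul_apply, co_apply, mul_apply_eq_comp,
      E_e, g.h1 _ _ q.2, smul_eq_mul]
    by_cases a : c s = c t ∧ q = t
    · have b : c s = c (g.θ ω) := by rw [a.1, ← a.2, q.2]
      rw [if_pos a, g.h2 _ _ _ q.2 b, Finset.sum_eq_single ⟨s, b⟩]
      · rw [ee, if_pos rfl, mul_one]
        rfl
      · intro r _ hr
        rw [ee, if_neg, mul_zero]
        intro x
        have := congrArg g.θ x
        rw [g.h1 _ _ r.2, g.h1 _ _ b] at this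
        exact hr (Subtype.ext this)
      · simp
    · simp [if_neg a]

noncomputable def trc (g : Sy c ℕ) (ω : ℕ) : (H →L[ℂ] H) →L[ℂ] ℂ :=
  ∑ p : {p // c p = c (g.θ ω)}, co e (g.a p ω) (g.a p ω)

omit [CompleteSpace H] in
theorem trc_eq (g : Sy c ℕ) (ω : ℕ) (T : H →L[ℂ] H) : trc e g ω T = (Mt e g ω T).trace := by
  simp [trc, Matrix.trace, Mt]

theorem trc_close (g : Sy c ℕ) (ω : ℕ) {p q : H →L[ℂ] H} (hp : p ∈ Alg e g) (hq : q ∈ Alg e g)
    (ip : p * p = p) (iq : q * q = q) (h : ‖p - q‖ < 1) : trc e g ω p = trc e g ω q :=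
  odd (Alg e g) (one_mem e g) _ (fun a ha b hb => by
    rw [trc_eq, trc_eq, Mt_mul e g ω _ hb, Mt_mul e g ω _ ha, Matrix.trace_mul_comm]) hp hq ip iq h

theorem trc_nat (g : Sy c ℕ) (ω : ℕ) {p : H →L[ℂ] H} (hp : p ∈ Alg e g) (ip : p * p = p) :
    ∃ n : ℕ, trc e g ω p = n := by
  have : IsIdempotentElem (Matrix.toLin' (Mt e g ω p)) := by
    show _ ∘ₗ _ = _
    rw [← Matrix.toLin'_mul, ← Mt_mul e g ω _ hp, ip]
  refine ⟨_, (trc_eq e g ω p).trans ((Matrix.trace_toLin'_eq _).symm.trans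
    (LinearMap.IsIdempotentElem.isProj_range _ this).trace)⟩

theorem trc_zero (g : Sy c ℕ) {p : H →L[ℂ] H} (hp : IsStarProjection p)
    (h : ∀ ω, trc e g ω p = 0) : p = 0 := bext e fun i => by
  have key : ∀ j, co e j j p = ((‖p (e j)‖ ^ 2 : ℝ) : ℂ) := fun j => by
    rw [co_apply]
    conv_lhs => rw [← hp.isIdempotentElem.eq, mul_apply_eq_comp,
      ← ContinuousLinearMap.adjoint_inner_left, ← ContinuousLinearMap.star_eq_adjoint,
      hp.isSelfAdjoint.star_eq]
    rw [inner_self_eq_norm_sq_to_K]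
    simp
  have := h i
  simp only [trc, sum_apply, key] at this
  rw [← Complex.ofReal_sum, Complex.ofReal_eq_zero,
    Finset.sum_eq_zero_iff_of_nonneg fun _ _ => sq_nonneg _] at this
  simpa [g.h3] using this ⟨g.θ i, rfl⟩ (Finset.mem_univ _)

end Pool.Agent.H.MP_5f80dd_lc
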