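import Mathlib
import Pool.Agent.H.MP_5f80dd_lc.F

namespace Pool.Agent.H.MP_5f80dd_lc

open Set Filter Topology

structure Lev where
  N : ℕ
  d : ℕ
  c : Fin N → Fin d
  b : Fin d → V
  s : Sy c ℕ

structure Good (L : Lev) : Prop where
  li : LinearIndependent ℚ L.b
  pos : ∀ w, 0 < tau (L.b w)
  inf : ∀ p, {ω | L.s.θ ω = p}.Infinite
  sur : Function.Surjective L.c

def Sb (L L' : Lev) : Prop := ∃ (μ : Sy L.c (Fin L'.N)) (hμ : μ.Pres L'.c),
  Iw (fun ω => ω) L.s (μ.comp hμ L'.s) ∧ Rp (fun p => L.b (L.c p)) μ.θ fun q => L'.b (L'.c q)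

theorem Sb.refl (L : Lev) : Sb L L :=
  ⟨Sy.id _, fun _ _ h => h, ⟨fun _ => rfl, fun _ _ _ => rfl⟩, fun p => by
    simp [Sy.id, Finset.filter_eq']⟩

theorem Sb.trans {L L' L'' : Lev} (h : Sb L L') (h' : Sb L' L'') : Sb L L'' := by
  obtain ⟨μ, hμ, a, b⟩ := h
  obtain ⟨ν, hν, a', b'⟩ := h'
  exact ⟨μ.comp hμ ν, hμ.comp hν, a.trans (a'.comp μ hμ), b.comp b'⟩

def Nx (F : Finset V) (L L' : Lev) : Prop := Good L' ∧
  (∃ (μ : Sy L.c (Fin L'.N)) (hμ : μ.Pres L'.c), Iw (fun ω => ω) L.s (μ.comp hμ L'.s) ∧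
    (Rp (fun p => L.b (L.c p)) μ.θ fun q => L'.b (L'.c q)) ∧ ∀ p w, ∃ q, μ.θ q = p ∧ L'.c q = w) ∧
  (∀ H : AddSubgroup V, (∀ h ∈ H, (3 : ℚ)⁻¹ • h ∈ H) → (∀ g ∈ F, g ∈ H) → (∀ w, L.b w ∈ H) →
    ∀ w, L'.b w ∈ H) ∧
  (∀ g ∈ F, ∃ c : Fin L'.d → ℤ, g = ∑ i, c i • L'.b i) ∧
  ∀ g ∈ F, 0 < tau g → ∃ c : Fin L'.d → ℕ, g = ∑ i, c i • L'.b i

theorem exNx (F : Finset V) (L : Lev) : ∃ L', Good L → Nx F L L' := by
  classical
  by_cases hL : Good L
  swap
  · exact ⟨L, fun h => absurd h hL⟩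
  have hb : ∀ w, L.b w ∈ F ∪ Finset.univ.image L.b := fun w => by simp
  obtain ⟨d, b, b1, b2, b3, b4, b5⟩ := lattice (F ∪ Finset.univ.image L.b)
    ⟨_, hb (L.c (L.s.θ 0)), hL.pos _⟩
  choose m m1 m2 using fun w => b5 _ (hb w) (hL.pos w)
  obtain ⟨N, κ, μ, hμ, cnt⟩ := mkSy L.c m
  have full : ∀ p w, ∃ q, μ.θ q = p ∧ κ q = w := fun p w => by
    obtain ⟨q, hq⟩ := (Nat.card_pos_iff.1 ((cnt p w).symm ▸ m1 (L.c p) w)).1
    exact ⟨q, Prod.ext_iff.1 hq⟩
  obtain ⟨s, s1, s2⟩ := refine μ hμ (fun p => (full p 0).imp fun _ h => h.1) L.s hL.inf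
  refine ⟨⟨N, d + 1, κ, b, s⟩, fun _ => ⟨⟨b1, b2, s1, fun w => (full (L.s.θ 0) w).imp fun _ h => h.2⟩,
    ⟨μ, hμ, s2, fun p => ?_, full⟩, fun H h1 h2 h3 => b3 H h1 fun g hg => ?_,
    fun g hg => b4 g (by simp [hg]), fun g hg h => (b5 g (by simp [hg]) h).imp fun _ h => h.2⟩⟩
  · simp only [cell_sum, cnt]
    exact m2 _
  · rcases Finset.mem_union.1 hg with h | h
    · exact h2 g h
    · obtain ⟨w, -, rfl⟩ := Finset.mem_image.1 h
      exact h3 w

noncomputable def L0 : Lev :=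
  ⟨1, 1, id, fun _ => xx [], ⟨fun _ => 0, fun _ ω => ω, fun _ _ _ => Subsingleton.elim _ _,
    fun _ _ _ _ _ => rfl, fun _ => rfl⟩⟩

theorem L0_good : Good L0 :=
  ⟨(linearIndependent_unique_iff (ι := Fin 1)).2 (Finsupp.single_ne_zero.2 one_ne_zero),
    fun _ => (tau_xx []).symm ▸ one_pos,
    fun p => infinite_univ.mono fun _ _ => Subsingleton.elim (α := Fin 1) _ p, Function.surjective_id⟩

noncomputable def tw (F : ℕ → Finset V) : ℕ → Lev
  | 0 => L0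
  | n + 1 => (exNx (F n) (tw F n)).choose

theorem tw_good (F : ℕ → Finset V) (n : ℕ) : Good (tw F n) := by
  induction n with
  | zero => exact L0_good
  | succ n ih => exact ((exNx (F n) (tw F n)).choose_spec ih).1

theorem tw_nx (F : ℕ → Finset V) (n : ℕ) : Nx (F n) (tw F n) (tw F (n + 1)) :=
  (exNx (F n) (tw F n)).choose_spec (tw_good F n)

theorem tw_sb (F : ℕ → Finset V) {m n : ℕ} (h : m ≤ n) : Sb (tw F m) (tw F n) := by
  induction h with
  | refl => exact Sb.refl _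
  | step _ ih =>
    obtain ⟨μ, hμ, a, b, -⟩ := (tw_nx F _).2.1
    exact ih.trans ⟨μ, hμ, a, b⟩

theorem tw_loc {F F' : ℕ → Finset V} (n : ℕ) (h : ∀ k < n, F k = F' k) : tw F n = tw F' n := by
  induction n with
  | zero => rfl
  | succ n ih => simp only [tw, ih fun k hk => h k (by omega), h n (by omega)]

theorem tw_mem {F : ℕ → Finset V} {G : AddSubgroup V} (h1 : ∀ h ∈ G, (3 : ℚ)⁻¹ • h ∈ G)
    (h2 : xx [] ∈ G) (h3 : ∀ n, ∀ g ∈ F n, g ∈ G) (n : ℕ) : ∀ w, (tw F n).b w ∈ G := by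
  induction n with
  | zero => exact fun _ => h2
  | succ n ih => exact (tw_nx F n).2.2.1 G h1 (h3 n) ih

variable {H : Type} [NormedAddCommGroup H] [InnerProductSpace ℂ H] [CompleteSpace H]
  (e : HilbertBasis ℕ ℂ H)

theorem al_mono (F : ℕ → Finset V) : Monotone fun n => Alg e (tw F n).s := fun _ _ h =>
  let ⟨_, _, a, _⟩ := tw_sb F h; Alg_mono e a

noncomputable def AA (F : ℕ → Finset V) : NonUnitalStarSubalgebra ℂ (H →L[ℂ] H) :=
  (⨆ n, Alg e (tw F n).s).topologicalClosure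

theorem AA_coe (F : ℕ → Finset V) :
    (AA e F : Set (H →L[ℂ] H)) = closure (⋃ n, (Alg e (tw F n).s : Set (H →L[ℂ] H))) := by
  rw [← NonUnitalStarSubalgebra.coe_iSup_of_directed (al_mono e F).directed_le]
  rfl

theorem le_AA (F : ℕ → Finset V) (n : ℕ) : Alg e (tw F n).s ≤ AA e F := fun _ h =>
  (AA_coe e F).symm.subset (subset_closure (mem_iUnion.2 ⟨n, h⟩))

theorem AA_apx {F : ℕ → Finset V} {T : H →L[ℂ] H} (hT : T ∈ AA e F) {ε : ℝ} (hε : 0 < ε) :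
    ∃ n, ∃ a ∈ Alg e (tw F n).s, ‖T - a‖ < ε := by
  obtain ⟨a, ha, h⟩ := Metric.mem_closure_iff.1 ((AA_coe e F).subset hT) ε hε
  obtain ⟨n, ha⟩ := mem_iUnion.1 ha
  exact ⟨n, a, ha, by rwa [← dist_eq_norm]⟩

theorem E_ne {L : Lev} (hL : Good L) (p : Fin L.N) : E e L.s p p ≠ 0 := fun h => by
  obtain ⟨i, hi⟩ := (hL.inf p).nonempty
  have := E_e e L.s p p i
  rw [h, if_pos ⟨rfl, hi⟩] at this
  exact e.orthonormal.ne_zero _ this.symm

theorem simple (F : ℕ → Finset V) (J : AddSubgroup (H →L[ℂ] H)) (hJ : IsClosed (J : Set (H →L[ℂ] H)))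
    (hl : ∀ a ∈ AA e F, ∀ x ∈ J, a * x ∈ J) (hr : ∀ a ∈ AA e F, ∀ x ∈ J, x * a ∈ J)
    {x : H →L[ℂ] H} (hx : x ∈ J) (hA : x ∈ AA e F) (h0 : x ≠ 0) : (1 : H →L[ℂ] H) ∈ J := by
  have sm : ∀ (a : ℂ), ∀ x ∈ J, a • x ∈ J := fun a x hx => by
    simpa using hl _ (SMulMemClass.smul_mem a (le_AA e F 0 (one_mem e _))) x hx
  have hA' := SMulMemClass.smul_mem ((‖x‖⁻¹ : ℝ) : ℂ) hA
  obtain ⟨n, a, ha, h⟩ := AA_apx e hA' (show (0 : ℝ) < 1 / 8 by norm_num)
  obtain ⟨z, z1, z2, z3⟩ := ideal _ (one_mem e _) _ (le_AA e F n) J hJ hl hr (sm _ x hx) hA' (by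
    rw [norm_smul, Complex.norm_real, norm_inv, norm_norm,
      inv_mul_cancel₀ (norm_ne_zero_iff.2 h0)]) ha h
  have m : ∀ n p q, E e (tw F n).s p q ∈ AA e F := fun n p q => le_AA e F n (E_mem e _ _ _)
  obtain ⟨p, q, h1⟩ : ∃ p q, E e (tw F n).s p p * z * E e (tw F n).s q q ≠ 0 := by
    by_contra hn
    push Not at hn
    refine z3 ?_
    rw [← one_mul z, ← mul_one (1 * z), ← E_sum e (tw F n).s]
    simp only [Finset.sum_mul, Finset.mul_sum, hn, Finset.sum_const_zero]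
  obtain ⟨a, ha⟩ : ∃ a : ℂ, a • E e (tw F n).s p q = E e (tw F n).s p p * z * E e (tw F n).s q q :=
    Submodule.mem_span_singleton.1 (Alg_le e ((Submodule.span ℂ {E e (tw F n).s p q}).comap
      (LinearMap.mulRight ℂ (E e (tw F n).s q q) ∘ₗ LinearMap.mulLeft ℂ (E e (tw F n).s p p)))
      (fun r s => by
        show E e (tw F n).s p p * E e (tw F n).s r s * E e (tw F n).s q q ∈ Submodule.span ℂ _
        rw [E_mul]
        split_ifs
        · rw [E_mul]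
          split_ifs
          · exact Submodule.mem_span_singleton_self _
          · exact zero_mem _
        · simp) z1)
  have a0 : a ≠ 0 := fun h => h1 (by rw [← ha, h, zero_smul])
  have hc : (tw F n).c p = (tw F n).c q := by_contra fun h => h1 (by rw [← ha, E_zero e _ h, smul_zero])
  have h2 : E e (tw F n).s p p ∈ J := by
    have := hr _ (m n q p) _ (sm a⁻¹ _ (hr _ (m n q q) _ (hl _ (m n p p) _ z2)))
    rwa [← ha, smul_smul, inv_mul_cancel₀ a0, one_smul, E_mul, if_pos ⟨rfl, hc⟩] at this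
  obtain ⟨μ, hμ, i, -, full⟩ := (tw_nx F n).2.1
  rw [← E_sum e (tw F (n + 1)).s]
  refine sum_mem fun r _ => ?_
  obtain ⟨q, q1, q2⟩ := full p ((tw F (n + 1)).c r)
  have := hr _ (m (n + 1) q r) _ (hl _ (m (n + 1) r q) _ h2)
  rw [E_comp e i p p rfl, Finset.mul_sum, Finset.sum_eq_single q] at this
  · rwa [← q1, μ.h3, E_mul, if_pos ⟨rfl, q2.symm⟩, E_mul, if_pos ⟨rfl, q2.symm⟩] at this
  · intro s hs hsq
    rw [← (Finset.mem_filter.1 hs).2, μ.h3, E_mul, if_neg fun x => hsq x.1.symm]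
  · simp [q1]

def io (v : V) : List ℕ → ℂ := fun t => (v t : ℂ)

theorem io_inj : Function.Injective io := fun _ _ h =>
  Finsupp.ext fun t => Rat.cast_injective (α := ℂ) (congrFun h t)

noncomputable def ioh : V →+ (List ℕ → ℂ) := AddMonoidHom.mk' io fun a b => by
  funext t; simp [io]

noncomputable def Dl (L : Lev) (T : H →L[ℂ] H) : List ℕ → ℂ :=
  ∑ p, co e (Function.invFun L.s.θ p) (Function.invFun L.s.θ p) T • ioh (L.b (L.c p))

theorem Good.inv {L : Lev} (hL : Good L) (p : Fin L.N) : L.s.θ (Function.invFun L.s.θ p) = p :=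
  Function.invFun_eq (hL.inf p).nonempty

theorem Dl_sb {L L' : Lev} (hL : Good L) (hL' : Good L') (h : Sb L L') {T : H →L[ℂ] H}
    (hT : T ∈ Alg e L.s) : Dl e L' T = Dl e L T := by
  obtain ⟨μ, hμ, a, b⟩ := h
  rw [Dl, Dl, ← Finset.sum_fiberwise (g := μ.θ)]
  refine Finset.sum_congr rfl fun p _ => ?_
  rw [show L.b (L.c p) = _ from b p, map_sum, Finset.smul_sum]
  refine Finset.sum_congr rfl fun q hq => ?_
  rw [co_diag e hT (j := Function.invFun L.s.θ p)]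
  rw [← a.1, hL.inv]
  show μ.θ (L'.s.θ _) = p
  rw [hL'.inv, (Finset.mem_filter.1 hq).2]

theorem Dl_trc {L : Lev} (hL : Good L) : ∃ σ : Fin L.d → ℕ, (∀ w, L.c (L.s.θ (σ w)) = w) ∧
    ∀ T ∈ Alg e L.s, Dl e L T = ∑ w, trc e L.s (σ w) T • ioh (L.b w) := by
  choose t ht using hL.sur
  refine ⟨fun w => Function.invFun L.s.θ (t w), fun w => by rw [hL.inv, ht], fun T hT => ?_⟩
  rw [Dl, ← Finset.sum_fiberwise (g := L.c)]
  refine Finset.sum_congr rfl fun w _ => ?_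
  rw [trc, sum_apply, Finset.sum_smul, Finset.sum_subtype (p := fun p => L.c p =
    L.c (L.s.θ (Function.invFun L.s.θ (t w)))) (F := inferInstance) _ (by simp [hL.inv, ht])]
  refine Finset.sum_congr rfl fun p _ => ?_
  rw [co_diag e hT (j := L.s.a p (Function.invFun L.s.θ (t w))) (by rw [hL.inv, L.s.h1 _ _ p.2]),
    show L.c p = w by rw [p.2, hL.inv, ht]]

theorem trc_col {L : Lev} {T : H →L[ℂ] H} (hT : T ∈ Alg e L.s) {i j : ℕ}
    (h : L.c (L.s.θ i) = L.c (L.s.θ j)) : trc e L.s i T = trc e L.s j T := by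
  rw [trc, trc, sum_apply, sum_apply]
  refine Fintype.sum_equiv (Equiv.subtypeEquivRight fun p => by rw [h]) _ _ fun p => ?_
  exact co_diag e hT (by rw [L.s.h1 _ _ p.2]; exact (L.s.h1 _ _ (p.2.trans h)).symm)

def Dm (F : ℕ → Finset V) (p : H →L[ℂ] H) (v : V) : Prop :=
  ∃ n, ∃ q ∈ Alg e (tw F n).s, IsStarProjection q ∧ ‖p - q‖ < 1 / 8 ∧ Dl e (tw F n) q = ioh v

theorem Dm_close {F : ℕ → Finset V} {p p' : H →L[ℂ] H} {v v' : V} (h : Dm e F p v)
    (h' : Dm e F p' v') (hn : ‖p - p'‖ ≤ 3 / 4) : v = v' := by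
  obtain ⟨n, q, a1, a2, a3, a4⟩ := h
  obtain ⟨n', q', b1, b2, b3, b4⟩ := h'
  refine io_inj (a4.symm.trans (Eq.trans ?_ b4))
  rw [← Dl_sb e (tw_good F n) (tw_good F (n + n')) (tw_sb F (by omega)) a1,
    ← Dl_sb e (tw_good F n') (tw_good F (n + n')) (tw_sb F (by omega)) b1]
  replace a1 := al_mono e F (show n ≤ n + n' by omega) a1
  replace b1 := al_mono e F (show n' ≤ n + n' by omega) b1
  obtain ⟨σ, -, h⟩ := Dl_trc e (tw_good F (n + n'))
  rw [h _ a1, h _ b1]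
  refine Finset.sum_congr rfl fun w _ => ?_
  rw [trc_close e _ _ a1 b1 a2.isIdempotentElem b2.isIdempotentElem]
  have e1 : q - q' = (p - p') + (p' - q') - (p - q) := by abel
  rw [e1]
  linarith [norm_sub_le (p - p' + (p' - q')) (p - q), norm_add_le (p - p') (p' - q')]

theorem Dl_ex {L : Lev} (hL : Good L) {q : H →L[ℂ] H} (h1 : q ∈ Alg e L.s)
    (h2 : IsStarProjection q) :
    ∃ r : Fin L.d → ℕ, Dl e L q = ioh (∑ w, r w • L.b w) ∧ (∑ w, r w • L.b w = 0 → q = 0) := by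
  obtain ⟨σ, s1, h⟩ := Dl_trc e hL
  choose r hr using fun w => trc_nat e L.s (σ w) h1 h2.isIdempotentElem
  refine ⟨r, by simp only [h _ h1, hr, map_sum, map_nsmul, Nat.cast_smul_eq_nsmul], fun h0 => ?_⟩
  simp only [← Nat.cast_smul_eq_nsmul ℚ] at h0
  refine trc_zero e L.s h2 fun ω => ?_
  rw [trc_col e h1 (s1 _).symm, hr,
    Nat.cast_eq_zero.1 (Fintype.linearIndependent_iff.1 hL.li _ h0 _), Nat.cast_zero]

theorem Dm_ex {F : ℕ → Finset V} {G : AddSubgroup V} (hG : ∀ n w, (tw F n).b w ∈ G)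
    {p : H →L[ℂ] H} (hp : p ∈ AA e F) (h : IsStarProjection p) :
    ∃ v ∈ G, Dm e F p v ∧ (v = 0 → p = 0) := by
  obtain ⟨n, a, ha, h1⟩ := AA_apx e hp (show (0 : ℝ) < 1 / 100 by norm_num)
  obtain ⟨q, q1, q2, q3⟩ := pert _ (Alg_closed e _) h ha (by norm_num) h1.le
  obtain ⟨r, r1, r2⟩ := Dl_ex e (tw_good F n) q1 q2
  refine ⟨_, sum_mem fun w _ => nsmul_mem (hG n w) _, ⟨n, q, q1, q2, by linarith, r1⟩, fun h0 => ?_⟩
  rw [r2 h0, sub_zero] at q3
  have := CStarRing.norm_star_mul_self (x := p)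
  rw [h.isSelfAdjoint.star_eq, h.isIdempotentElem.eq] at this
  exact norm_eq_zero.1 (by nlinarith [norm_nonneg p])

theorem Dm_add {F : ℕ → Finset V} {p p' : H →L[ℂ] H} (hp : p ∈ AA e F) (h : IsStarProjection p)
    (hp' : p' ∈ AA e F) (h' : IsStarProjection p') (o : p * p' = 0) :
    ∃ v v', Dm e F p v ∧ Dm e F p' v' ∧ Dm e F (p + p') (v + v') := by
  obtain ⟨n, a, ha, h1⟩ := AA_apx e hp (show (0 : ℝ) < 1 / 10000 by norm_num)
  obtain ⟨n', a', ha', h1'⟩ := AA_apx e hp' (show (0 : ℝ) < 1 / 10000 by norm_num)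
  replace ha := al_mono e F (show n ≤ n + n' by omega) ha
  replace ha' := al_mono e F (show n' ≤ n + n' by omega) ha'
  obtain ⟨q, q1, q2, q3⟩ := pert _ (Alg_closed e _) h ha (by norm_num) h1.le
  let M : NonUnitalStarSubalgebra ℂ (H →L[ℂ] H) :=
    { carrier := {T | q * T = 0 ∧ T * q = 0}
      add_mem' := fun a b => ⟨by rw [mul_add, a.1, b.1, add_zero], by rw [add_mul, a.2, b.2, add_zero]⟩
      zero_mem' := ⟨mul_zero _, zero_mul _⟩
      mul_mem' := fun a b => ⟨by rw [← mul_assoc, a.1, zero_mul], by rw [mul_assoc, b.2, mul_zero]⟩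
      smul_mem' := fun c _ a => ⟨by rw [mul_smul_comm, a.1, smul_zero],
        by rw [smul_mul_assoc, a.2, smul_zero]⟩
      star_mem' := fun a => ⟨by rw [← q2.isSelfAdjoint.star_eq, ← star_mul, a.2, star_zero],
        by rw [← q2.isSelfAdjoint.star_eq, ← star_mul, a.1, star_zero]⟩ }
  have o' : p' * p = 0 := by
    rw [← h.isSelfAdjoint.star_eq, ← h'.isSelfAdjoint.star_eq, ← star_mul, o, star_zero]
  have hq := sub_mem (one_mem e (tw F (n + n')).s) q1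
  obtain ⟨q', ⟨r1, r2, r3⟩, r4, r5⟩ := pert (Alg e (tw F (n + n')).s ⊓ M)
    ((Alg_closed e _).inter ((isClosed_eq (by fun_prop) continuous_const).inter
      (isClosed_eq (by fun_prop) continuous_const))) h' (a := (1 - q) * a' * (1 - q))
    ⟨mul_mem (mul_mem hq ha') hq, by
      simp only [← mul_assoc, mul_sub, mul_one, q2.isIdempotentElem.eq, sub_self, zero_mul], by
      simp only [mul_assoc, sub_mul, one_mul, q2.isIdempotentElem.eq, sub_self, mul_zero]⟩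
    (δ := 28 / 10000) (by norm_num) (by
      have e1 : p' - (1 - q) * a' * (1 - q) = (1 - q) * (p' - a') * (1 - q)
          - (p - q) * p' - (1 - q) * (p' * (p - q)) := by
        simp only [mul_sub, sub_mul, one_mul, mul_one, o, o', mul_assoc, mul_zero]
        abel
      have n1 := q2.one_sub.norm_le
      have n2 := h'.norm_le
      have b1 : ‖(1 - q) * (p' - a') * (1 - q)‖ ≤ 1 * (1 / 10000) * 1 :=
        (norm_mul₃_le).trans (by gcongr)
      have b2 : ‖(p - q) * p'‖ ≤ 9 * (1 / 10000) * 1 := (norm_mul_le _ _).trans (by gcongr)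
      have b3 : ‖(1 - q) * (p' * (p - q))‖ ≤ 1 * 1 * (9 * (1 / 10000)) := by
        rw [← mul_assoc]; exact (norm_mul₃_le).trans (by gcongr)
      rw [e1]
      refine (norm_sub_le _ _).trans ((add_le_add (norm_sub_le _ _) le_rfl).trans ?_)
      linarith)
  obtain ⟨r, s1, -⟩ := Dl_ex e (tw_good F _) q1 q2
  obtain ⟨r', s2, -⟩ := Dl_ex e (tw_good F _) r1 r4
  refine ⟨_, _, ⟨_, q, q1, q2, by linarith, s1⟩, ⟨_, q', r1, r4, by linarith, s2⟩,
    _, q + q', add_mem q1 r1, q2.add r4 r2, ?_, ?_⟩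
  · rw [add_sub_add_comm]
    linarith [norm_add_le (p - q) (p' - q')]
  · rw [map_add, ← s1, ← s2]
    simp only [Dl, map_add, add_smul, Finset.sum_add_distrib]

end Pool.Agent.H.MP_5f80dd_lc
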