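import Mathlib
import Pool.Agent.H.MP_5f80dd_lc.G

namespace Pool.Agent.H.MP_5f80dd_lc

open Set Filter Topology

variable {H : Type} [NormedAddCommGroup H] [InnerProductSpace ℂ H] [CompleteSpace H]
  (e : HilbertBasis ℕ ℂ H)

theorem E_proj {N d : ℕ} {c : Fin N → Fin d} (g : Sy c ℕ) (p : Fin N) :
    IsStarProjection (E e g p p) :=
  ⟨(E_mul e g p p p p).trans (if_pos ⟨rfl, rfl⟩), E_star e g p p⟩

theorem toHom {F F' : ℕ → Finset V} {G G' : AddSubgroup V} (hF : ∀ g ∈ G, ∀ᶠ n in atTop, g ∈ F n)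
    (hG' : ∀ n w, (tw F' n).b w ∈ G') (hx : xx [] ∈ G) (ψ : AA e F →⋆ₙₐ[ℂ] AA e F')
    (hψ : Function.Injective ψ) : ∃ φ : G →+ V, (∀ h, φ h ∈ G') ∧ φ ⟨_, hx⟩ ≠ 0 := by
  classical
  have ex : ∀ p : AA e F, ∃ v, IsStarProjection p →
      v ∈ G' ∧ Dm e F' (ψ p) v ∧ (v = 0 → p = 0) := fun p => by
    by_cases h : IsStarProjection p
    · obtain ⟨v, a, b, c⟩ := Dm_ex e hG' (ψ p).2
        (h.map ((NonUnitalStarSubalgebraClass.subtype _).comp ψ))
      exact ⟨v, fun _ => ⟨a, b, fun h0 => hψ (Subtype.ext ((c h0).trans (by simp)))⟩⟩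
    · exact ⟨0, fun h' => absurd h' h⟩
  choose dm d1 using ex
  have mp : ∀ p : AA e F, IsStarProjection p → IsStarProjection (ψ p : H →L[ℂ] H) := fun p h =>
    h.map ((NonUnitalStarSubalgebraClass.subtype _).comp ψ)
  have nr : ∀ a : H →L[ℂ] H, ‖a - a‖ ≤ 3 / 4 := fun a => by norm_num
  have add : ∀ p q, IsStarProjection p → IsStarProjection q → p * q = 0 →
      dm (p + q) = dm p + dm q := fun p q hp hq o => by
    obtain ⟨v, v', a, b, c⟩ := Dm_add e (ψ p).2 (mp p hp) (ψ q).2 (mp q hq) (by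
      rw [← MulMemClass.coe_mul, ← map_mul, o, map_zero]; rfl)
    rw [Dm_close e (d1 p hp).2.1 a (nr _), Dm_close e (d1 q hq).2.1 b (nr _)]
    refine Dm_close e (d1 _ (hp.add hq o)).2.1 c ?_
    rw [map_add]
    exact nr _
  let Ee : ∀ n, Fin (tw F n).N → Fin (tw F n).N → AA e F := fun n p q =>
    ⟨E e (tw F n).s p q, le_AA e F n (E_mem e _ _ _)⟩
  have mul : ∀ n p q r s, Ee n p q * Ee n r s =
      if q = r ∧ (tw F n).c p = (tw F n).c q then Ee n p s else 0 := fun n p q r s => by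
    refine Subtype.ext ((E_mul e _ p q r s).trans ?_)
    split_ifs <;> rfl
  have st : ∀ n p q, star (Ee n p q) = Ee n q p := fun n p q => Subtype.ext (E_star e _ p q)
  have pj : ∀ n p, IsStarProjection (Ee n p p) := fun n p =>
    ⟨(mul n p p p p).trans (if_pos ⟨rfl, rfl⟩), st n p p⟩
  have sm : ∀ n (S : Finset (Fin (tw F n).N)), IsStarProjection (∑ q ∈ S, Ee n q q) ∧
      dm (∑ q ∈ S, Ee n q q) = ∑ q ∈ S, dm (Ee n q q) := fun n S => by
    induction S using Finset.induction_on with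
    | empty =>
      have := add 0 0 (.zero _) (.zero _) (mul_zero _)
      rw [add_zero, left_eq_add] at this
      simpa using this
    | insert a S ha ih =>
      have o : Ee n a a * ∑ q ∈ S, Ee n q q = 0 := by
        rw [Finset.mul_sum]
        exact Finset.sum_eq_zero fun q hq => by
          rw [mul, if_neg]
          exact fun x => ha (x.1 ▸ hq)
      rw [Finset.sum_insert ha, Finset.sum_insert ha, add _ _ (pj n a) ih.1 o, ih.2]
      exact ⟨(pj n a).add ih.1 o, rfl⟩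
  have eqv : ∀ n p q, (tw F n).c p = (tw F n).c q → dm (Ee n p p) = dm (Ee n q q) := by
    intro n p q hc
    by_cases hpq : p = q
    · rw [hpq]
    let χ := (NonUnitalStarSubalgebraClass.subtype (AA e F')).comp ψ
    have o : Ee n p p * Ee n q q = 0 := by rw [mul, if_neg fun x => hpq x.1]
    obtain ⟨r, r0, r1, r2, r3⟩ := mid (p := χ (Ee n p p)) (p' := χ (Ee n q q)) (v := χ (Ee n q p))
      (by rw [← map_add]; exact ((pj n p).add (pj n q) o).map χ)
      ((pj n p).map χ).isIdempotentElem ((pj n q).map χ).isIdempotentElem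
      (by rw [← map_mul, o, map_zero])
      (by rw [← map_mul, mul, if_neg fun x => hpq x.1.symm, map_zero])
      ((pj n p).map χ).isSelfAdjoint ((pj n q).map χ).isSelfAdjoint
      (by rw [← map_star, ← map_mul, st, mul, if_pos ⟨rfl, hc⟩])
      (by rw [← map_star, ← map_mul, st, mul, if_pos ⟨rfl, hc.symm⟩])
      (by rw [← map_mul, mul, if_pos ⟨rfl, hc.symm⟩]) (by rw [← map_mul, mul, if_pos ⟨rfl, rfl⟩])
    obtain ⟨v, -, a, -⟩ := Dm_ex e hG' (p := r) (r0 ▸ SMulMemClass.smul_mem _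
      (add_mem (add_mem (add_mem (ψ _).2 (ψ _).2) (ψ _).2) (star_mem (ψ _).2))) r1
    exact (Dm_close e (d1 _ (pj n p)).2.1 a r2).trans (Dm_close e (d1 _ (pj n q)).2.1 a r3).symm
  choose t ht using fun n => (tw_good F n).sur
  have exΦ : ∀ n, ∃ Φ : V →ₗ[ℚ] V, ∀ w, Φ ((tw F n).b w) = dm (Ee n (t n w) (t n w)) := fun n => by
    obtain ⟨Φ, h⟩ := LinearMap.exists_extend
      (Finsupp.linearCombination ℚ (fun w => dm (Ee n (t n w) (t n w))) ∘ₗ (tw_good F n).li.repr)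
    refine ⟨Φ, fun w => ?_⟩
    have := LinearMap.congr_fun h ⟨(tw F n).b w, Submodule.subset_span ⟨w, rfl⟩⟩
    rw [LinearMap.comp_apply, LinearMap.comp_apply, (tw_good F n).li.repr_eq_single w _ rfl] at this
    simpa using this
  choose Φ hΦ using exΦ
  have hΦ' : ∀ n p, Φ n ((tw F n).b ((tw F n).c p)) = dm (Ee n p p) := fun n p =>
    (hΦ n _).trans (eqv n _ _ (ht n _))
  have cp : ∀ m n, m ≤ n → ∀ g ∈ Submodule.span ℚ (range (tw F m).b), Φ n g = Φ m g := by
    intro m n h g hg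
    refine LinearMap.eqOn_span ?_ hg
    rintro _ ⟨w, rfl⟩
    obtain ⟨p, rfl⟩ := (tw_good F m).sur w
    obtain ⟨μ, hμ, a, b⟩ := tw_sb F h
    rw [hΦ', show (tw F m).b _ = _ from b p, map_sum]
    simp only [hΦ']
    rw [← (sm n _).2]
    congr 1
    refine Subtype.ext ?_
    rw [AddSubmonoidClass.coe_finsetSum]
    refine Eq.trans (Finset.sum_congr rfl fun q hq => ?_) (E_comp e a p p rfl).symm
    rw [← (Finset.mem_filter.1 hq).2, μ.h3]
  choose N hN using fun g : G => eventually_atTop.1 (hF g g.2)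
  have cb := fun (g : G) n (h : N g ≤ n) => (tw_nx F n).2.2.2.1 g (hN g n h)
  have sp : ∀ (g : G) n, N g ≤ n → (g : V) ∈ Submodule.span ℚ (range (tw F (n + 1)).b) := by
    intro g n h
    obtain ⟨c, hc⟩ := cb g n h
    rw [hc]
    exact sum_mem fun w _ => zsmul_mem (Submodule.subset_span (mem_range_self w)) _
  have st2 : ∀ (g : G) n, N g ≤ n → Φ (n + 1) g = Φ (N g + 1) g := fun g n h =>
    cp _ _ (by omega) _ (sp g _ le_rfl)
  refine ⟨AddMonoidHom.mk' (fun g => Φ (N g + 1) g) fun a b => ?_, fun g => ?_, fun h => ?_⟩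
  · beta_reduce
    rw [← st2 _ (N a + N b + N (a + b)) (by omega), ← st2 a (N a + N b + N (a + b)) (by omega),
      ← st2 b (N a + N b + N (a + b)) (by omega), AddSubgroup.coe_add, map_add]
  · obtain ⟨c, hc⟩ := cb g _ le_rfl
    show Φ (N g + 1) g ∈ G'
    rw [hc, map_sum]
    exact sum_mem fun w _ => by rw [map_zsmul, hΦ]; exact zsmul_mem (d1 _ (pj _ _)).1 _
  · have h1 : Φ _ (xx []) = 0 := h
    rw [cp 0 _ (Nat.zero_le _) (xx []) (Submodule.subset_span ⟨(0 : Fin 1), rfl⟩)] at h1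
    have h2 := (d1 _ (pj _ _)).2.2 ((hΦ 0 (0 : Fin 1)).symm.trans h1)
    exact E_ne e (tw_good F 0) _ (congrArg Subtype.val h2)

theorem lim_hom (A B : NonUnitalStarSubalgebra ℂ (H →L[ℂ] H)) (hB : IsClosed (B : Set (H →L[ℂ] H)))
    (σ : ℕ → ℕ ≃ ℕ) (h : ∀ T ∈ A, ∀ ε > 0, ∃ a, ‖T - a‖ < ε ∧ ∃ b ∈ B,
      ∀ᶠ n in atTop, U e (σ n) * a * U e (σ n).symm = b) :
    ∃ ψ : A →⋆ₙₐ[ℂ] B, Function.Injective ψ := by
  let c : ℕ → (H →L[ℂ] H) → (H →L[ℂ] H) := fun n T => U e (σ n) * T * U e (σ n).symm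
  have n1 : ∀ (s : ℕ ≃ ℕ) T, ‖U e s * T * U e s.symm‖ ≤ ‖T‖ := fun s T =>
    norm_mul₃_le.trans ((mul_le_mul (mul_le_of_le_one_left (norm_nonneg _) (U_norm e s))
      (U_norm e _) (norm_nonneg _) (norm_nonneg _)).trans_eq (mul_one _))
  have n2 : ∀ n T, ‖c n T‖ = ‖T‖ := fun n T => le_antisymm (n1 _ _) (by
    have := n1 (σ n).symm (c n T)
    rwa [Equiv.symm_symm, ← mul_assoc, ← mul_assoc, U_mul, one_mul, mul_assoc, U_mul,
      mul_one] at this)
  have n3 : ∀ n T a, ‖c n T - c n a‖ = ‖T - a‖ := fun n T a => by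
    rw [← n2 n (T - a)]; simp only [c, mul_sub, sub_mul]
  have key : ∀ T : A, ∃ S : B, Tendsto (fun n => c n T) atTop (𝓝 S) := fun T => by
    have ev : ∀ ε > 0, ∃ b ∈ B, ∀ᶠ n in atTop, dist (c n T) b < ε := fun ε hε => by
      obtain ⟨a, a1, b, b1, b2⟩ := h T T.2 ε hε
      refine ⟨b, b1, b2.mono fun n hn => ?_⟩
      rw [← hn, dist_eq_norm]
      exact (n3 n T a).trans_lt a1
    obtain ⟨S, hS⟩ := cauchySeq_tendsto_of_complete (u := fun n => c n T)
      (Metric.cauchySeq_iff.2 fun ε hε => by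
        obtain ⟨b, -, hb⟩ := ev (ε / 2) (by linarith)
        obtain ⟨N, hN⟩ := eventually_atTop.1 hb
        exact ⟨N, fun m hm n hn => by
          linarith [dist_triangle_right (c m T) (c n T) b, hN m hm, hN n hn]⟩)
    refine ⟨⟨S, hB.closure_subset (Metric.mem_closure_iff.2 fun ε hε => ?_)⟩, hS⟩
    obtain ⟨b, b1, hb⟩ := ev (ε / 2) (by linarith)
    exact ⟨b, b1, (le_of_tendsto (hS.dist tendsto_const_nhds) (hb.mono fun _ h => h.le)).trans_lt
      (by linarith)⟩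
  choose ψ hψ using key
  have u : ∀ (T : A) (S : B), Tendsto (fun n => c n T) atTop (𝓝 S) → ψ T = S := fun T S h =>
    Subtype.ext (tendsto_nhds_unique (hψ T) h)
  refine ⟨{ toFun := ψ
            map_smul' := fun a T => u _ _ (((hψ T).const_smul a).congr fun n => by simp [c])
            map_zero' := u _ _ (tendsto_const_nhds.congr fun n => by simp [c])
            map_add' := fun S T => u _ _ (((hψ S).add (hψ T)).congr fun n => by
              simp [c, mul_add, add_mul])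
            map_mul' := fun S T => u _ _ (((hψ S).mul (hψ T)).congr fun n => by
              simp only [c, mul_assoc, MulMemClass.coe_mul]
              rw [← mul_assoc (U e (σ n).symm) (U e (σ n)), U_mul, one_mul])
            map_star' := fun T => u _ _ ((hψ T).star.congr fun n => by
              simp [c, U_star, mul_assoc]) }, fun S T h => ?_⟩
  have h' : ψ S = ψ T := h
  have := ((hψ S).sub (hψ T)).norm
  simp only [n3, h', sub_self, norm_zero, tendsto_const_nhds_iff, norm_eq_zero, sub_eq_zero] at this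
  exact Subtype.ext this

theorem ofHom {F F' : ℕ → Finset V} {G G' : AddSubgroup V} (φ : V →ₗ[ℚ] V)
    (hG : ∀ n w, (tw F n).b w ∈ G) (hφ : ∀ g ∈ G, φ g ∈ G') (hτ : ∀ g, tau (φ g) = tau g)
    (h0 : φ (xx []) = xx []) (hF : ∀ g ∈ G', ∀ᶠ n in atTop, g ∈ F' n) :
    ∃ ψ : AA e F →⋆ₙₐ[ℂ] AA e F', Function.Injective ψ := by
  let St : ℕ → Type := fun n => {t : Σ m, Sy (tw F n).c (Fin (tw F' m).N) //
    t.2.Pres (tw F' t.1).c ∧ Rp (fun p => φ ((tw F n).b ((tw F n).c p))) t.2.θ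
      fun q => (tw F' t.1).b ((tw F' t.1).c q)}
  let h : ∀ n, St n → Sy (tw F n).c ℕ := fun n t => t.1.2.comp t.2.1 (tw F' t.1.1).s
  have step : ∀ n (t : St n), ∃ t' : St (n + 1), ∃ (μ : Sy (tw F n).c (Fin (tw F (n + 1)).N))
      (hμ : μ.Pres (tw F (n + 1)).c), Iw (fun ω => ω) (tw F n).s (μ.comp hμ (tw F (n + 1)).s) ∧
        Iw (fun ω => ω) (h n t) (μ.comp hμ (h (n + 1) t')) := by
    rintro n ⟨⟨m, g⟩, g1, g2⟩
    obtain ⟨μ, hμ, a, b, -⟩ := (tw_nx F n).2.1
    obtain ⟨k, k1, k2⟩ := ((eventually_all.2 fun v => hF _ (hφ _ (hG (n + 1) v))).and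
      (eventually_ge_atTop m)).exists
    obtain ⟨ν, hν, a', b'⟩ := tw_sb F' (show m ≤ k + 1 by omega)
    obtain ⟨g', c1, c2, c3⟩ := elliott (tw_good F' (k + 1)).li μ hμ
      (u := fun p => φ ((tw F n).b ((tw F n).c p))) (u' := fun v => φ ((tw F (n + 1)).b v))
      (fun p => by simp only [show (tw F n).b _ = _ from b p, map_sum])
      (g.comp g1 ν) (g1.comp hν) (g2.comp b') fun v => (tw_nx F' k).2.2.2.2 _ (k1 v)
        (by rw [hτ]; exact (tw_good F _).pos v)
    exact ⟨⟨⟨k + 1, g'⟩, c1, c3⟩, μ, hμ, a,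
      (a'.comp g g1).trans (c2.comp' (g1.comp hν) (hμ.comp c1) _)⟩
  choose nx μ hμ i1 i2 using step
  have k0 : ∀ p : Fin 1, xx [] = ∑ q : Fin 1 with q = p, xx [] := fun p => by
    rw [Finset.filter_eq', if_pos (Finset.mem_univ _), Finset.sum_singleton]
  let t : ∀ n, St n := fun n => n.rec ⟨⟨0, Sy.id _⟩, fun _ _ h => h, fun p =>
    h0.trans (k0 p)⟩ nx
  have exΞ : ∀ n, ∃ Ξ : ℕ ≃ ℕ, Iw Ξ (tw F n).s (h n (t n)) := fun n => by
    obtain ⟨Ξ, a, -⟩ := iso (κ := fun _ => ()) (κ₂ := fun _ => ()) (tw F n).s (h n (t n))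
      (fun _ _ _ => rfl) (fun _ _ _ => rfl) fun ⟨p, w⟩ => by
        haveI : Infinite {ω // ((tw F n).s.θ ω, ()) = (p, w)} :=
          Set.Infinite.to_subtype (s := {ω | ((tw F n).s.θ ω, ()) = (p, w)})
            (((tw_good F n).inf p).mono fun ω h => Prod.ext h rfl)
        obtain ⟨q, hq⟩ : ∃ q, (t n).1.2.θ q = p := by
          by_contra hn
          have := (tw_good F n).pos ((tw F n).c p)
          rw [← hτ, show φ _ = _ from (t n).2.2 p, Finset.filter_eq_empty_iff.2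
            fun q _ hq => hn ⟨q, hq⟩] at this
          simp at this
        haveI : Infinite {ω // ((h n (t n)).θ ω, ()) = (p, w)} :=
          Set.Infinite.to_subtype (s := {ω | ((h n (t n)).θ ω, ()) = (p, w)})
            (((tw_good F' _).inf q).mono fun ω h =>
              Prod.ext ((congrArg (t n).1.2.θ h).trans hq) rfl)
        exact nonempty_equiv_of_countable
    exact ⟨Ξ, a⟩
  choose Ξ hΞ using exΞ
  let C : ℕ → (H →L[ℂ] H) →ₗ[ℂ] (H →L[ℂ] H) := fun n =>
    LinearMap.mulRight ℂ (U e (Ξ n).symm) ∘ₗ LinearMap.mulLeft ℂ (U e (Ξ n))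
  have c1 : ∀ n, ∀ a ∈ Alg e (tw F n).s, C (n + 1) a = C n a := fun n a ha =>
    Alg_ind e _ _ (fun p q => (E_conj e (((i1 n (t n)).trans
      ((hΞ (n + 1)).comp _ (hμ n (t n)))).trans (i2 n (t n)).symm) p q).trans
        (E_conj e (hΞ n) p q).symm) ha
  refine lim_hom e _ _ isClosed_closure Ξ fun T hT ε hε => ?_
  obtain ⟨n, a, ha, h1⟩ := AA_apx e hT hε
  refine ⟨a, h1, C n a, ?_, eventually_atTop.2 ⟨n, fun m hm => ?_⟩⟩
  · refine Alg_le e ((AA e F').toNonUnitalSubalgebra.toSubmodule.comap (C n)) (fun p q => ?_) ha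
    show U e (Ξ n) * _ * _ ∈ AA e F'
    rw [E_conj e (hΞ n)]
    exact le_AA e F' _ (Alg_mono e ⟨fun _ => rfl, fun _ _ _ => rfl⟩ (E_mem e _ p q))
  · induction hm with
    | refl => rfl
    | step hm ih => exact (c1 _ a (al_mono e F hm ha)).trans ih

end Pool.Agent.H.MP_5f80dd_lc
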