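import Mathlib
import Pool.Agent.H.MP_5f80dd_lc.G
import Pool.Agent.H.MP_5f80dd_lc.Defs

namespace Pool.Agent.H.MP_5f80dd_lc

open Set Filter Topology

theorem cp_of {R K K' T : Type} [Mul R] [Star R] [NormedAddCommGroup K] [InnerProductSpace ℂ K]
    [NormedAddCommGroup K'] [InnerProductSpace ℂ K'] [Fintype T] (f : R → K →L[ℂ] K)
    (Y : T → R → K → K') (h : ∀ x y ξ η, (inner ℂ ξ (f (star x * y) η) : ℂ) =
      ∑ t, inner ℂ (Y t x ξ) (Y t y η)) : CP f := fun k x ξ => by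
  have : ∑ i, ∑ j, ip (ξ i) (f (star (x i) * x j) (ξ j)) =
      ((∑ t, ‖∑ i, Y t (x i) (ξ i)‖ ^ 2 : ℝ) : ℂ) := by
    simp only [ip, h]
    rw [Complex.ofReal_sum]
    simp only [Finset.sum_comm (s := (Finset.univ : Finset (Fin k)))
      (t := (Finset.univ : Finset T))]
    refine Finset.sum_congr rfl fun t _ => ?_
    simp only [← inner_sum, ← sum_inner]
    rw [inner_self_eq_norm_sq_to_K]
    simp
  rw [this]
  exact ⟨(Complex.ofReal_re _).symm ▸ Finset.sum_nonneg fun _ _ => sq_nonneg _, Complex.ofReal_im _⟩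

variable {H : Type} [NormedAddCommGroup H] [InnerProductSpace ℂ H] [CompleteSpace H]
  (e : HilbertBasis ℕ ℂ H)

theorem cpc {n : ℕ} {T : Type} [Fintype T] (f : Mn n →ₗ[ℂ] H →L[ℂ] H) (Y : T → Mn n → H →L[ℂ] H)
    (h : ∀ x y, f (star x * y) = ∑ t, star (Y t x) * Y t y) (h1 : f 1 = 1) :
    CP f ∧ ∀ m, ‖f m‖ ≤ ‖m‖ := by
  refine ⟨cp_of f (fun t x => Y t x) fun x y ξ η => by
    rw [h]
    simp only [sum_apply, inner_sum, mul_apply_eq_comp, ContinuousLinearMap.star_eq_adjoint,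
      ContinuousLinearMap.adjoint_inner_right], fun m => ?_⟩
  have a1 : ∑ t, star (Y t 1) * Y t m = f m := by rw [← h, star_one, one_mul]
  have a2 : ∑ t, star (Y t m) * Y t 1 = star (f m) := by
    rw [← a1, star_sum]
    simp only [star_mul, star_star]
  have a3 : ∑ t, star (Y t 1) * Y t 1 = 1 := by rw [← h, star_one, one_mul, h1]
  have b1 : star (f m) * f m ≤ f (star m * m) := by
    have := Finset.sum_nonneg fun t (_ : t ∈ Finset.univ) =>
      star_mul_self_nonneg (Y t m - Y t 1 * f m)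
    have e1 : ∑ t, star (Y t m - Y t 1 * f m) * (Y t m - Y t 1 * f m) =
        ∑ t, star (Y t m) * Y t m - (∑ t, star (Y t m) * Y t 1) * f m
          - star (f m) * ∑ t, star (Y t 1) * Y t m
          + star (f m) * (∑ t, star (Y t 1) * Y t 1) * f m := by
      simp only [Finset.sum_mul, Finset.mul_sum, ← Finset.sum_sub_distrib,
        ← Finset.sum_add_distrib, star_sub, star_mul, mul_sub, sub_mul, mul_assoc]
      exact Finset.sum_congr rfl fun _ _ => by abel
    rwa [e1, a1, a2, a3, ← h, mul_one, sub_add_cancel, sub_nonneg] at this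
  obtain ⟨b, hb⟩ := CStarAlgebra.nonneg_iff_eq_star_mul_self.1
    (sub_nonneg.2 (CStarAlgebra.star_mul_le_algebraMap_norm_sq (a := m)))
  have b2 : f (star m * m) ≤ algebraMap ℝ _ (‖m‖ ^ 2) := by
    have := congrArg f hb
    rw [map_sub, h b, Algebra.algebraMap_eq_smul_one, ← Complex.coe_smul, map_smul, h1,
      Complex.coe_smul, ← Algebra.algebraMap_eq_smul_one] at this
    exact sub_nonneg.1 (this ▸ Finset.sum_nonneg fun t _ => star_mul_self_nonneg _)
  have := (CStarAlgebra.norm_le_iff_le_algebraMap _ (sq_nonneg ‖m‖)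
    (star_mul_self_nonneg (f m))).2 (b1.trans b2)
  rw [CStarRing.norm_star_mul_self, ← sq] at this
  exact (pow_le_pow_iff_left₀ (norm_nonneg _) (norm_nonneg _) two_ne_zero).1 this

theorem cpap {L : Lev} (hL : Good L) : ∃ (φ : (H →L[ℂ] H) →ₗ[ℂ] Mn L.N)
    (ψ : Mn L.N →ₗ[ℂ] H →L[ℂ] H), CP φ ∧ CP ψ ∧ (∀ a, ‖φ a‖ ≤ ‖a‖) ∧ (∀ m, ‖ψ m‖ ≤ ‖m‖) ∧
      (∀ m, ψ m ∈ Alg e L.s) ∧ ∀ a ∈ Alg e L.s, ψ (φ a) = a := by
  choose t ht using hL.sur
  let σ : Fin L.N → ℕ := fun p => L.s.a p (Function.invFun L.s.θ (t (L.c p)))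
  have s1 : ∀ p, L.s.θ (σ p) = p := fun p => L.s.h1 _ _ (by rw [hL.inv, ht])
  have s2 : ∀ p q, L.c p = L.c q → L.s.a p (σ q) = σ p := fun p q h => by
    simp only [σ, h]
    exact L.s.h2 _ _ _ (by rw [hL.inv, ht]) (by rw [hL.inv, ht, h])
  let δ := EuclideanSpace.basisFun (Fin L.N) ℂ
  let W := ((δ.toBasis.constr ℂ fun p => e (σ p)).isometryOfOrthonormal (v := δ.toBasis)
    (by simpa using δ.orthonormal) (by
      convert e.orthonormal.comp σ (Function.LeftInverse.injective s1) using 1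
      funext p
      exact δ.toBasis.constr_basis ℂ _ p)).toContinuousLinearMap
  have w1 : ∀ p, W (δ p) = e (σ p) := fun p => δ.toBasis.constr_basis ℂ _ p
  have w2 : ‖W‖ ≤ 1 := LinearIsometry.norm_toContinuousLinearMap_le _
  let φ : (H →L[ℂ] H) →ₗ[ℂ] Mn L.N :=
    { toFun := fun a => W.adjoint ∘L a ∘L W
      map_add' := fun a b => by simp
      map_smul' := fun a b => by simp }
  let en : Fin L.N → Fin L.N → Mn L.N →ₗ[ℂ] ℂ := fun p q =>
    ((innerSL ℂ (δ p)).comp (ContinuousLinearMap.apply ℂ _ (δ q))).toLinearMap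
  have en1 : ∀ p q m, en p q m = inner ℂ (δ p) (m (δ q)) := fun _ _ _ => rfl
  let ψ : Mn L.N →ₗ[ℂ] H →L[ℂ] H := ∑ p, ∑ q, (en p q).smulRight (E e L.s p q)
  have p1 : ∀ m, ψ m = ∑ p, ∑ q, en p q m • E e L.s p q := fun m => by
    simp only [ψ, LinearMap.sum_apply, LinearMap.smulRight_apply]
  obtain ⟨c1, c2⟩ := cpc ψ
    (fun (r : Fin L.d × Fin L.N) x => ∑ q, en r.2 q x • E e L.s (t r.1) q) (fun x y => by
      simp only [p1, star_sum, star_smul, E_star, Finset.sum_mul, Finset.mul_sum, smul_mul_smul_comm,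
        E_mul, true_and]
      rw [Finset.sum_comm]
      conv_rhs => rw [Finset.sum_comm]
      refine Finset.sum_congr rfl fun q _ => ?_
      rw [Finset.sum_comm]
      refine Finset.sum_congr rfl fun p _ => ?_
      rw [Fintype.sum_prod_type, Finset.sum_eq_single (L.c p)]
      · simp only [ht, if_true, ← Finset.sum_smul, en1, mul_apply_eq_comp,
          ContinuousLinearMap.star_eq_adjoint, ContinuousLinearMap.adjoint_inner_right]
        rw [← δ.sum_inner_mul_inner]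
        simp only [← inner_conj_symm (x (δ p))]
        rfl
      · intro w _ hw
        simp [ht, hw.symm]
      · simp) (by
      rw [p1, ← E_sum e L.s]
      simp [en1, orthonormal_iff_ite.1 δ.orthonormal])
  refine ⟨φ, ψ, cp_of (T := Unit) φ (fun _ x ξ => x (W ξ)) fun x y ξ η => ?_, c1, fun a => ?_, c2,
    fun m => p1 m ▸ sum_mem fun p _ => sum_mem fun q _ => SMulMemClass.smul_mem _ (E_mem e _ _ _),
    fun a ha => Alg_ind e (ψ ∘ₗ φ) LinearMap.id (fun p q => ?_) ha⟩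
  · simp [φ, ContinuousLinearMap.adjoint_inner_right, ContinuousLinearMap.star_eq_adjoint]
  · refine (ContinuousLinearMap.opNorm_comp_le _ _).trans ?_
    rw [LinearIsometryEquiv.norm_map]
    exact (mul_le_mul w2 (ContinuousLinearMap.opNorm_comp_le _ _) (norm_nonneg _)
      zero_le_one).trans (by nlinarith [norm_nonneg a])
  · have k : ∀ r s, en r s (φ (E e L.s p q)) = if L.c p = L.c q ∧ s = q ∧ r = p then 1 else 0 := by
      intro r s
      show (inner ℂ (δ r) (W.adjoint (E e L.s p q (W (δ s)))) : ℂ) = _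
      rw [ContinuousLinearMap.adjoint_inner_right, w1, w1, E_in, s1]
      refine if_congr (and_congr_right fun h => and_congr_right ?_) rfl rfl
      rintro rfl
      rw [s2 _ _ h]
      exact (Function.LeftInverse.injective s1).eq_iff
    rw [LinearMap.comp_apply, p1]
    by_cases h : L.c p = L.c q
    · simp [k, h, ite_and]
    · simp [k, h, E_zero e _ h]

theorem smp (F : ℕ → Finset V) : Simple (AA e F) := by
  refine ⟨fun h => E_ne e (tw_good F 0) (0 : Fin 1) ?_, fun I hI => ?_⟩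
  · have := le_AA e F 0 (E_mem e _ (0 : Fin 1) (0 : Fin 1))
    rw [h] at this
    exact NonUnitalStarAlgebra.mem_bot.1 this
  refine or_iff_not_imp_left.2 fun h => ?_
  obtain ⟨x, hx, h0⟩ : ∃ x ∈ I, x ≠ 0 := by
    by_contra hn
    push Not at hn
    exact h (eq_bot_iff.2 hn)
  let J : AddSubgroup (H →L[ℂ] H) :=
    { carrier := Subtype.val '' (I : Set (AA e F))
      add_mem' := by rintro _ _ ⟨a, ha, rfl⟩ ⟨b, hb, rfl⟩; exact ⟨_, I.add_mem ha hb, rfl⟩
      zero_mem' := ⟨0, I.zero_mem, rfl⟩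
      neg_mem' := by rintro _ ⟨a, ha, rfl⟩; exact ⟨_, I.neg_mem ha, rfl⟩ }
  have hc : IsClosed (AA e F : Set (H →L[ℂ] H)) := isClosed_closure
  obtain ⟨u, hu, u1⟩ := simple e F J (hc.isClosedEmbedding_subtypeVal.isClosedMap _ hI)
    (by rintro a ha _ ⟨y, hy, rfl⟩; exact ⟨_, I.mul_mem_left ⟨a, ha⟩ y hy, rfl⟩)
    (by rintro a ha _ ⟨y, hy, rfl⟩; exact ⟨_, I.mul_mem_right y ⟨a, ha⟩ hy, rfl⟩)
    (x := x) ⟨x, hx, rfl⟩ x.2 fun a => h0 (Subtype.ext a)
  refine eq_top_iff.2 fun y _ => ?_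
  have : y * u = y := Subtype.ext (by
    show (y : H →L[ℂ] H) * u = y
    rw [show (u : H →L[ℂ] H) = 1 from u1, mul_one])
  exact this ▸ I.mul_mem_left y u hu

end Pool.Agent.H.MP_5f80dd_lc
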