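import Mathlib
import Pool.Agent.H.MP_5f80dd_lc.I
import Pool.Agent.H.MP_5f80dd_lc.J

namespace Pool.Agent.H.MP_5f80dd_lc

open Set Filter Topology MeasureTheory Pool.Agent.H.MP_93a5dd_an

variable {H : Type} [NormedAddCommGroup H] [InnerProductSpace ℂ H] [CompleteSpace H]
  (e : HilbertBasis ℕ ℂ H)

noncomputable def gm (L : Lev) (k : ℕ) : H →L[ℂ] H :=
  if h : k.unpair.1 < L.N ∧ k.unpair.2 < L.N then E e L.s ⟨_, h.1⟩ ⟨_, h.2⟩ else 0

noncomputable def cd (F : ℕ → Finset V) (m : ℕ) : H →L[ℂ] H := gm e (tw F m.unpair.1) m.unpair.2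

theorem Cs_cd (F : ℕ → Finset V) : Cs (cd e F) = AA e F := by
  refine congrArg NonUnitalStarSubalgebra.topologicalClosure (le_antisymm
    (NonUnitalStarAlgebra.adjoin_le ?_) (iSup_le fun n T hT => Alg_le e
      (NonUnitalStarAlgebra.adjoin ℂ (range (cd e F))).toNonUnitalSubalgebra.toSubmodule
      (fun p q => NonUnitalStarAlgebra.subset_adjoin ℂ _ ⟨n.pair ((p : ℕ).pair q), ?_⟩) hT))
  · rintro _ ⟨m, rfl⟩
    refine le_iSup (fun n => Alg e (tw F n).s) m.unpair.1 ?_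
    unfold cd gm
    split_ifs
    · exact E_mem e _ _ _
    · exact zero_mem _
  · rw [cd, Nat.unpair_pair]
    simp [gm]

theorem core {R : P → P → Prop} (h1 : ∀ u, R u u) (h2 : ∀ u v w, R u v → R v w → R u w)
    (hR : AnalyticSet {q : P × P | R q.1 q.2}) : ∃ F : P → ℕ → Finset V,
      (∀ n x y, (∀ i < n, x i = y i) → F x n = F y n) ∧
      ∀ x y, R x y ↔ Emb (AA e (F x)) (AA e (F y)) := by
  classical
  obtain ⟨Lab, a, l1, l2, l3, l4, l5⟩ := LR h1 h2 hR
  obtain ⟨en, hen⟩ := exists_surjective_nat V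
  let F : P → ℕ → Finset V := fun x n =>
    ((Finset.range n).image en).filter (· ∈ G fun a s => Lab x a s ∧ s.length ≤ n)
  have f1 : ∀ x, ∀ g ∈ G (Lab x), ∀ᶠ n in atTop, g ∈ F x n := fun x g hg => by
    obtain ⟨k, rfl⟩ := hen g
    obtain ⟨m, hm⟩ := G_union hg
    refine eventually_atTop.2 ⟨k + m + 1, fun n hn => Finset.mem_filter.2
      ⟨Finset.mem_image_of_mem _ (Finset.mem_range.2 (by omega)),
        G_mono (fun c s h => ⟨h.1, by omega⟩) hm⟩⟩
  have f2 : ∀ x n w, (tw (F x) n).b w ∈ G (Lab x) := fun x =>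
    tw_mem (fun _ => G_three) (xx_mem _) fun n g hg =>
      G_mono (fun _ _ h => h.1) (Finset.mem_filter.1 hg).2
  refine ⟨F, fun n x y h => ?_, fun x y => ⟨fun h => ?_, fun ⟨ψ, hψ⟩ => ?_⟩⟩
  · have : (fun a s => Lab x a s ∧ s.length ≤ n) = fun a s => Lab y a s ∧ s.length ≤ n := by
      funext a s
      exact propext (and_congr_left fun hs => ⟨l1 _ _ _ _ fun i hi => h i (by omega),
        l1 _ _ _ _ fun i hi => (h i (by omega)).symm⟩)
    simp only [F, this]
  · obtain ⟨α, hα⟩ := l2 x y h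
    exact ofHom e _ (f2 x) (fun g => G_sh hα) (tau_sh α) (by simp [xx, sh]) (f1 y)
  · obtain ⟨φ, p1, p2⟩ := toHom e (f1 x) (f2 y) (xx_mem _) ψ hψ
    obtain ⟨β, hβ⟩ := branch φ p1 p2 (l3 x) (l4 x y)
    exact l5 x y β hβ

theorem main (X : Type) [TopologicalSpace X] [PolishSpace X] [MeasurableSpace X] [BorelSpace X]
    (R : X → X → Prop) (h1 : ∀ u, R u u) (h2 : ∀ u v w, R u v → R v w → R u w)
    (hR : AnalyticSet {q : X × X | R q.1 q.2}) : ∃ γ : X → ℕ → H →L[ℂ] H,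
      @Measurable _ _ _ (@MeasurableSpace.pi ℕ _ fun _ => wot H) γ ∧
      (∀ x, AF (Cs (γ x)) ∧ Simple (Cs (γ x)) ∧ ∃ F, Cs (γ x) = AA e F) ∧
      ∀ x y, R x y ↔ Emb (Cs (γ x)) (Cs (γ y)) := by
  obtain ⟨j, j1, j2⟩ := MeasurableSpace.measurable_injection_nat_bool_of_countablySeparated X
  obtain ⟨F, f1, f2⟩ := core e (R := fun u v => u = v ∨ ∃ x y, R x y ∧ j x = u ∧ j y = v)
    (fun u => Or.inl rfl) (by
      rintro _ _ _ (rfl | ⟨x, y, a, rfl, rfl⟩) h
      · exact h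
      · rcases h with rfl | ⟨y', z, b, c, rfl⟩
        · exact Or.inr ⟨x, y, a, rfl, rfl⟩
        · exact Or.inr ⟨x, z, h2 _ _ _ a (j2 c ▸ b), rfl, rfl⟩) (by
      obtain ⟨β, _, _, g, g1, g2⟩ := analyticSet_iff_exists_polishSpace_range.1 hR
      borelize β
      have a := MeasurableSet.univ.analyticSet_image ((j1.prodMap j1).comp g1.measurable)
      rw [image_univ, range_comp, g2] at a
      have b := AnalyticSet.iUnion (s := fun b : Bool => bif b then diagonal P else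
        Prod.map j j '' {q | R q.1 q.2})
        fun b => by cases b; exacts [a, isClosed_diagonal.analyticSet]
      convert b using 1
      ext ⟨u, v⟩
      simp [and_assoc, or_comm])
  letI := wot H
  refine ⟨fun x => cd e (F (j x)), measurable_pi_lambda _ fun m => ?_, fun x => ?_, fun x y => ?_⟩
  · have : (fun x => cd e (F (j x)) m) = (fun y : Fin m.unpair.1 → Bool =>
        cd e (F fun i => if h : i < m.unpair.1 then y ⟨i, h⟩ else false) m) ∘ fun x i => j x i := by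
      funext x
      simp only [cd, Function.comp]
      rw [tw_loc _ fun k hk => f1 k _ _ fun i hi => ?_]
      rw [dif_pos (by omega)]
    rw [this]
    exact (measurable_of_finite _).comp (measurable_pi_lambda _ fun i => (measurable_pi_apply _).comp j1)
  · rw [Cs_cd]
    exact ⟨⟨_, al_mono e _, fun n => inferInstance, AA_coe e _⟩, smp e _, _, rfl⟩
  · rw [Cs_cd, Cs_cd, ← f2]
    refine ⟨fun h => Or.inr ⟨x, y, h, rfl, rfl⟩, ?_⟩
    rintro (h | ⟨x', y', a, b, c⟩)
    · exact j2 h ▸ h1 x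
    · exact j2 b ▸ j2 c ▸ a

end Pool.Agent.H.MP_5f80dd_lc
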