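import Mathlib
import Pool.Agent.H.MP_5f80dd_lc.K
import Pool.Agent.H.MP_5f80dd_lc.Defs2

namespace Pool.Agent.H.MP_5f80dd_lc

open Set Filter Topology

variable {H : Type} [NormedAddCommGroup H] [InnerProductSpace ℂ H] [CompleteSpace H]

theorem sa (A : NonUnitalStarSubalgebra ℂ (H →L[ℂ] H)) : S.Sa (A : Set (H →L[ℂ] H)) :=
  ⟨zero_mem A, fun _ ha => ⟨star_mem ha, fun c => SMulMemClass.smul_mem c ha,
    fun _ hb => ⟨add_mem ha hb, mul_mem ha hb⟩⟩⟩

theorem cs_eq (γ : ℕ → H →L[ℂ] H) : S.Cs γ = Cs γ := by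
  refine subset_antisymm (sInter_subset_of_mem ⟨sa _, isClosed_closure, fun n =>
    subset_closure (NonUnitalStarAlgebra.subset_adjoin ℂ _ ⟨n, rfl⟩)⟩)
    (subset_sInter fun T ⟨a, b, c⟩ => closure_minimal ?_ b)
  let M : NonUnitalStarSubalgebra ℂ (H →L[ℂ] H) :=
    { carrier := T
      add_mem' := fun x y => ((a.2 _ x).2.2 _ y).1
      zero_mem' := a.1
      mul_mem' := fun x y => ((a.2 _ x).2.2 _ y).2
      smul_mem' := fun c _ x => (a.2 _ x).2.1 c
      star_mem' := fun x => (a.2 _ x).1 }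
  exact NonUnitalStarAlgebra.adjoin_le (S := M) (range_subset_iff.2 c)

variable {A A' : NonUnitalStarSubalgebra ℂ (H →L[ℂ] H)}

theorem af_of (h : AF A) : S.AF (A : Set (H →L[ℂ] H)) := by
  obtain ⟨M, a, b, c⟩ := h
  refine ⟨fun n => M n, fun m n h => a h, fun n => ⟨sa _, ?_⟩, c⟩
  obtain ⟨s, hs⟩ := (Submodule.fg_iff_finiteDimensional
    (M n).toNonUnitalSubalgebra.toSubmodule).2 (b n)
  exact ⟨s, fun x hx => hs.ge hx⟩

theorem simple_of (h : Simple A) : S.Simple (A : Set (H →L[ℂ] H)) := by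
  refine ⟨fun e => h.1 (SetLike.ext' (e.trans NonUnitalStarAlgebra.coe_bot.symm)), fun I hI c z k => ?_⟩
  have n : ∀ x ∈ I, -x ∈ I := fun x hx => zero_sub x ▸ (k 0 z).1 x hx
  let J : TwoSidedIdeal A := TwoSidedIdeal.mk' (Subtype.val ⁻¹' I) z
    (fun {x y} a b => by
      have := (k _ a).1 _ (n _ b)
      rwa [sub_neg_eq_add] at this)
    (fun a => n _ a) (fun {x y} a => ((k _ a).2 _ x.2).1) fun {x y} a => ((k _ a).2 _ y.2).2
  have m : ∀ x, x ∈ J ↔ (x : H →L[ℂ] H) ∈ I := fun x => TwoSidedIdeal.mem_mk' _ _ _ _ _ _ _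
  rcases h.2 J ((Set.ext m : (J : Set A) = Subtype.val ⁻¹' I) ▸
    c.preimage continuous_subtype_val) with e | e
  · refine Or.inl (subset_antisymm (fun x hx => ?_) (singleton_subset_iff.2 z))
    have := (m ⟨x, hI hx⟩).2 hx
    rw [e] at this
    exact congrArg Subtype.val (TwoSidedIdeal.mem_bot _ |>.1 this)
  · exact Or.inr (subset_antisymm hI fun x hx => (m ⟨x, hx⟩).1 (e ▸ TwoSidedIdeal.mem_top _))

theorem emb_iff : Emb A A' ↔ S.Emb (A : Set (H →L[ℂ] H)) A' := by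
  classical
  constructor
  · rintro ⟨ψ, hψ⟩
    let f : (H →L[ℂ] H) → H →L[ℂ] H := fun x => if h : x ∈ A then ψ ⟨x, h⟩ else 0
    have e : ∀ x : A, f x = ψ x := fun x => dif_pos x.2
    refine ⟨f, fun x hx => (e ⟨x, hx⟩).symm ▸ (ψ _).2, fun x hx y hy h => congrArg Subtype.val
      (hψ (a₁ := ⟨x, hx⟩) (a₂ := ⟨y, hy⟩) (Subtype.ext ((e _).symm.trans (h.trans (e ⟨y, hy⟩))))),
      fun a ha b hb c => ?_, fun a ha => ⟨?_, fun b hb => ?_⟩⟩
    · rw [show f a = _ from e ⟨a, ha⟩, show f b = _ from e ⟨b, hb⟩,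
        show f (c • a + b) = _ from e (c • ⟨a, ha⟩ + ⟨b, hb⟩), map_add, map_smul]
      rfl
    · rw [show f a = _ from e ⟨a, ha⟩, show f (star a) = _ from e (star ⟨a, ha⟩), map_star]
      rfl
    · rw [show f a = _ from e ⟨a, ha⟩, show f b = _ from e ⟨b, hb⟩,
        show f (a * b) = _ from e (⟨a, ha⟩ * ⟨b, hb⟩), map_mul]
      rfl
  · rintro ⟨f, a, b, c, d⟩
    have z : f 0 = 0 := by simpa using c 0 (zero_mem A) 0 (zero_mem A) 1
    exact ⟨{ toFun := fun x => ⟨f x, a x.2⟩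
             map_smul' := fun r x => Subtype.ext (by simpa [z] using c x x.2 0 (zero_mem A) r)
             map_zero' := Subtype.ext z
             map_add' := fun x y => Subtype.ext (by simpa using c x x.2 y y.2 1)
             map_mul' := fun x y => Subtype.ext ((d x x.2).2 y y.2)
             map_star' := fun x => Subtype.ext (d x x.2).1 },
      fun x y h => Subtype.ext (b x.2 y.2 (congrArg Subtype.val h))⟩

theorem cp_pos {R : Type} [Mul R] [Star R] {f : R → H →L[ℂ] H} (h : CP f) {k : ℕ} (x : Fin k → R)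
    (y : Fin k → H →L[ℂ] H) :
    ∃ z, ∑ i, ∑ j, star (y i) * f (star (x i) * x j) * y j = star z * z := by
  refine CStarAlgebra.nonneg_iff_eq_star_mul_self.1 ((ContinuousLinearMap.nonneg_iff_isPositive _).2
    ((ContinuousLinearMap.isPositive_iff_complex _).2 fun ξ => ?_))
  obtain ⟨a, b⟩ := h k x fun i => y i ξ
  have e : (inner ℂ ξ ((∑ i, ∑ j, star (y i) * f (star (x i) * x j) * y j) ξ) : ℂ) =
      ∑ i, ∑ j, ip (y i ξ) (f (star (x i) * x j) (y j ξ)) := by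
    simp only [sum_apply, inner_sum, mul_apply_eq_comp, ContinuousLinearMap.star_eq_adjoint,
      ContinuousLinearMap.adjoint_inner_right, ip]
  rw [← inner_conj_symm, e]
  exact ⟨Complex.ext (by simp) (by simpa using b), a⟩

theorem ccp_of {B : Type} [CStarAlgebra B] (f : B →ₗ[ℂ] H →L[ℂ] H) (h : CP f)
    (h' : ∀ a, ‖f a‖ ≤ ‖a‖) (A : Set B) : S.CCP A f :=
  ⟨fun a _ b _ c => by rw [map_add, map_smul], fun a _ => h' a, fun _ x y _ => cp_pos h x y⟩

theorem nuc2 (e : HilbertBasis ℕ ℂ H) (F : ℕ → Finset V) :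
    S.Nuclear (AA e F : Set (H →L[ℂ] H)) := fun T hT hf ε hε => by
  choose! n a ha h using fun x (hx : x ∈ T) => AA_apx e (hT hx) (half_pos hε)
  obtain ⟨N, hN⟩ := (hf.image n).bddAbove
  obtain ⟨φ, ψ, a1, a2, a3, a4, a5, a6⟩ := cpap e (tw_good F N)
  refine ⟨_, φ, ψ, ccp_of φ a1 a3 _, ccp_of ψ a2 a4 _, fun m => le_AA e F _ (a5 m), fun x hx => ?_⟩
  have e1 : ψ (φ x) - x = ψ (φ (x - a x)) - (x - a x) := by
    rw [map_sub, map_sub, a6 _ (al_mono e F (hN ⟨x, hx, rfl⟩) (ha x hx))]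
    abel
  rw [e1]
  linarith [norm_sub_le (ψ (φ (x - a x))) (x - a x), a4 (φ (x - a x)), a3 (x - a x), h x hx]

end Pool.Agent.H.MP_5f80dd_lc
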